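import Mathlib

/-!
# Definitions for the problem `Matroids of geproci sets`

`Projectivization ℂ (Fin (n + 1) → ℂ)` is the projective space of dimension `n` over the complex
numbers; for a point `x` of it, `x.submodule` is the corresponding one-dimensional subspace of
`Fin (n + 1) → ℂ` and `x.rep` is a nonzero vector of that subspace.
-/

namespace Pool.Agent.Work.MP_586029_ag

open MvPolynomial

/-- The homogeneous ideal of a set `Y` of points of the projective space with `m` homogeneous
coordinates: the ideal generated by all the forms vanishing at all the points of `Y`. -/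
noncomputable def homogeneousIdeal {m : ℕ} (Y : Set (Projectivization ℂ (Fin m → ℂ))) :
    Ideal (MvPolynomial (Fin m) ℂ) :=
  Ideal.span {f | (∃ d, f.IsHomogeneous d) ∧ ∀ y ∈ Y, eval y.rep f = 0}

/-- `Y` (in the projective space with `m` homogeneous coordinates, i.e. of dimension `m - 1`) is a
zero-dimensional complete intersection: its homogeneous ideal is generated by a regular sequence
of `m - 1` forms. -/
def IsCompleteIntersection {m : ℕ} (Y : Set (Projectivization ℂ (Fin m → ℂ))) : Prop :=
  ∃ f : Fin (m - 1) → MvPolynomial (Fin m) ℂ, (∀ i, ∃ d, (f i).IsHomogeneous d) ∧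
    RingTheory.Sequence.IsRegular (MvPolynomial (Fin m) ℂ) (List.ofFn f) ∧
    Ideal.span (Set.range f) = homogeneousIdeal Y

/-- The image of `Z` under the linear projection given by the linear map `π`. When `π` is
surjective with kernel the line of a point `P`, this is the projection from the point `P`: for a
hyperplane `H` not containing `P`, projecting from `P` to `H` and identifying `H` with the
projective space of dimension `n - 1` amounts to applying such a `π`. -/
def projImage {n : ℕ} (π : (Fin (n + 1) → ℂ) →ₗ[ℂ] (Fin n → ℂ))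
    (Z : Set (Projectivization ℂ (Fin (n + 1) → ℂ))) : Set (Projectivization ℂ (Fin n → ℂ)) :=
  {q | ∃ z ∈ Z, q.submodule = z.submodule.map π}

/-- `Z` is geproci: for a general point `P` (all the points outside the zero set of some nonzero
form `D`), `P` is not in `Z` and the projection of `Z` from `P` to a hyperplane is a complete
intersection. -/
def IsGeproci {n : ℕ} (Z : Set (Projectivization ℂ (Fin (n + 1) → ℂ))) : Prop :=
  ∃ D : MvPolynomial (Fin (n + 1)) ℂ, D ≠ 0 ∧ (∃ d, D.IsHomogeneous d) ∧
    ∀ P : Projectivization ℂ (Fin (n + 1) → ℂ), eval P.rep D ≠ 0 →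
      P ∉ Z ∧ ∀ π : (Fin (n + 1) → ℂ) →ₗ[ℂ] (Fin n → ℂ), LinearMap.range π = ⊤ →
        LinearMap.ker π = P.submodule → IsCompleteIntersection (projImage π Z)

/-- `Z` is degenerate: it lies in a hyperplane. -/
def IsDegenerate {n : ℕ} (Z : Set (Projectivization ℂ (Fin (n + 1) → ℂ))) : Prop :=
  ∃ H : Submodule ℂ (Fin (n + 1) → ℂ), Module.finrank ℂ H = n ∧ ∀ z ∈ Z, z.submodule ≤ H

/-- `Z` is an `(a, b)`-grid in `ℙ³` for some `a ≤ b`: there are `a` pairwise skew lines `L i` and
`b` pairwise skew lines `M j` such that each `L i` meets each `M j` in exactly one point, and `Z`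
is the set of these intersection points. (Lines are two-dimensional subspaces of `Fin 4 → ℂ`;
two lines are skew when they intersect in the zero subspace.) -/
def IsGrid (Z : Set (Projectivization ℂ (Fin 4 → ℂ))) : Prop :=
  ∃ (a b : ℕ) (L : Fin a → Submodule ℂ (Fin 4 → ℂ)) (M : Fin b → Submodule ℂ (Fin 4 → ℂ)),
    a ≤ b ∧ (∀ i, Module.finrank ℂ (L i) = 2) ∧ (∀ j, Module.finrank ℂ (M j) = 2) ∧
    (∀ i i', i ≠ i' → L i ⊓ L i' = ⊥) ∧ (∀ j j', j ≠ j' → M j ⊓ M j' = ⊥) ∧
    (∀ i j, Module.finrank ℂ ↥(L i ⊓ M j) = 1) ∧ Z = {z | ∃ i j, z.submodule = L i ⊓ M j}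

/-- `Z` is a finite non-trivial geproci set in `ℙ³`: a finite geproci set that is neither
degenerate nor a grid. -/
structure IsNontrivialGeproci (Z : Set (Projectivization ℂ (Fin 4 → ℂ))) : Prop where
  /-- `Z` is finite -/
  finite : Z.Finite
  /-- `Z` is geproci -/
  geproci : IsGeproci (n := 3) Z
  /-- `Z` does not lie in a plane -/
  nondegenerate : ¬ IsDegenerate (n := 3) Z
  /-- `Z` is not a grid -/
  not_grid : ¬ IsGrid Z

/-- The matroids of `Z` and `Z'` are isomorphic: some bijection `Z ≃ Z'` preserves independence of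
subsets, in both directions (`Projectivization.Independent` says that representative vectors are
linearly independent). -/
def MatroidIso {n : ℕ} (Z Z' : Set (Projectivization ℂ (Fin (n + 1) → ℂ))) : Prop :=
  ∃ e : Z ≃ Z', ∀ S : Set Z,
    Projectivization.Independent (fun x : S => (x : Z).1) ↔
      Projectivization.Independent (fun x : S => (e x).1)

/-- `Z` and `Z'` are projectively equivalent: `Z'` is the image of `Z` under the projective
transformation of some invertible linear map. -/
def ProjEquiv {n : ℕ} (Z Z' : Set (Projectivization ℂ (Fin (n + 1) → ℂ))) : Prop :=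
  ∃ g : (Fin (n + 1) → ℂ) ≃ₗ[ℂ] (Fin (n + 1) → ℂ),
    Projectivization.map g.toLinearMap g.injective '' Z = Z'

end Pool.Agent.Work.MP_586029_ag
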