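import Mathlib

/-! Part A: ideals of finite sets of points lying on lines in the plane. -/

namespace Pool.Agent.Work.MP_586029_ag

open MvPolynomial

/-- the linear form `ψ` as a polynomial -/
noncomputable def linPoly {m : ℕ} (ψ : (Fin m → ℂ) →ₗ[ℂ] ℂ) : MvPolynomial (Fin m) ℂ :=
  ∑ i, C (ψ (Pi.single i 1)) * X i

theorem eval_linPoly {m : ℕ} (ψ : (Fin m → ℂ) →ₗ[ℂ] ℂ) (y : Fin m → ℂ) :
    eval y (linPoly ψ) = ψ y := by
  simp only [linPoly, map_sum, map_mul, eval_C, eval_X]
  rw [LinearMap.pi_apply_eq_sum_univ ψ y]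
  refine Finset.sum_congr rfl fun i _ => ?_
  have : (Pi.single i 1 : Fin m → ℂ) = fun j => if i = j then 1 else 0 := by
    ext j; simp [Pi.single_apply, eq_comm]
  rw [this, smul_eq_mul, mul_comm]

theorem isHomogeneous_linPoly {m : ℕ} (ψ : (Fin m → ℂ) →ₗ[ℂ] ℂ) :
    (linPoly ψ).IsHomogeneous 1 := by
  apply IsHomogeneous.sum
  intro i _
  simpa using (isHomogeneous_C (Fin m) (ψ (Pi.single i 1))).mul (isHomogeneous_X ℂ i)

/-- substitution lemma: `f - φ f` lies in the ideal generated by the `X i - φ (X i)` -/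
theorem sub_aeval_mem {m : ℕ} (g : Fin m → MvPolynomial (Fin m) ℂ)
    (I : Ideal (MvPolynomial (Fin m) ℂ)) (hI : ∀ i, X i - g i ∈ I) (f : MvPolynomial (Fin m) ℂ) :
    f - aeval g f ∈ I := by
  rw [← Ideal.Quotient.eq]
  have h : (Ideal.Quotient.mkₐ ℂ I) = (Ideal.Quotient.mkₐ ℂ I).comp (aeval g) := by
    apply MvPolynomial.algHom_ext
    intro i
    simp only [Ideal.Quotient.mkₐ_eq_mk, AlgHom.coe_comp, Function.comp_apply, aeval_X]
    rw [Ideal.Quotient.eq]
    exact hI i
  have := congrArg (fun F => F f) h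
  simpa using this

/-- a polynomial vanishing on a hyperplane is divisible by its equation -/
theorem mem_span_of_vanish {m : ℕ} (ψ : (Fin m → ℂ) →ₗ[ℂ] ℂ) (e : Fin m → ℂ) (he : ψ e = 1)
    (f : MvPolynomial (Fin m) ℂ) (hf : ∀ y, ψ y = 0 → eval y f = 0) :
    f ∈ Ideal.span {linPoly ψ} := by
  have h := sub_aeval_mem (fun i => X i - C (e i) * linPoly ψ) (Ideal.span {linPoly ψ})
    (fun i => by
      simp only [sub_sub_cancel]
      exact Ideal.mul_mem_left _ _ (Ideal.subset_span rfl)) f
  have h2 : aeval (fun i => X i - C (e i) * linPoly ψ) f = 0 := by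
    apply MvPolynomial.funext
    intro y
    rw [map_zero]
    have : eval y (aeval (fun i => X i - C (e i) * linPoly ψ) f) = eval (y - ψ y • e) f := by
      rw [← MvPolynomial.coe_aeval_eq_eval, ← MvPolynomial.coe_aeval_eq_eval]
      simp only [RingHom.coe_coe]
      rw [← AlgHom.comp_apply, MvPolynomial.comp_aeval]
      congr 1
      congr 1
      funext i
      simp only [map_sub, map_mul, aeval_X, aeval_C, Pi.sub_apply, Pi.smul_apply, smul_eq_mul]
      have := eval_linPoly ψ y
      rw [← MvPolynomial.coe_aeval_eq_eval] at this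
      simp only [RingHom.coe_coe] at this
      rw [this]
      simp [mul_comm]
    rw [this]
    apply hf
    rw [map_sub, map_smul, he]
    simp
  rw [h2, sub_zero] at h
  exact h

/-- two linear forms -/
theorem mem_span_pair_of_vanish {m : ℕ} (ψ χ : (Fin m → ℂ) →ₗ[ℂ] ℂ) (e e' : Fin m → ℂ)
    (he : ψ e = 1) (he' : ψ e' = 0) (hce : χ e = 0) (hce' : χ e' = 1)
    (f : MvPolynomial (Fin m) ℂ) (hf : ∀ y, ψ y = 0 → χ y = 0 → eval y f = 0) :
    f ∈ Ideal.span {linPoly ψ, linPoly χ} := by
  have h := sub_aeval_mem (fun i => X i - C (e i) * linPoly ψ - C (e' i) * linPoly χ)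
    (Ideal.span {linPoly ψ, linPoly χ})
    (fun i => by
      have : X i - (X i - C (e i) * linPoly ψ - C (e' i) * linPoly χ) =
        C (e i) * linPoly ψ + C (e' i) * linPoly χ := by ring
      rw [this]
      refine Ideal.add_mem _ (Ideal.mul_mem_left _ _ (Ideal.subset_span (by simp)))
        (Ideal.mul_mem_left _ _ (Ideal.subset_span (by simp)))) f
  have h2 : aeval (fun i => X i - C (e i) * linPoly ψ - C (e' i) * linPoly χ) f = 0 := by
    apply MvPolynomial.funext
    intro y
    rw [map_zero]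
    have : eval y (aeval (fun i => X i - C (e i) * linPoly ψ - C (e' i) * linPoly χ) f) =
        eval (y - ψ y • e - χ y • e') f := by
      rw [← MvPolynomial.coe_aeval_eq_eval, ← MvPolynomial.coe_aeval_eq_eval]
      simp only [RingHom.coe_coe]
      rw [← AlgHom.comp_apply, MvPolynomial.comp_aeval]
      congr 1
      congr 1
      funext i
      simp only [map_sub, map_mul, aeval_X, aeval_C, Pi.sub_apply, Pi.smul_apply, smul_eq_mul]
      have h1 := eval_linPoly ψ y
      have h2 := eval_linPoly χ y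
      rw [← MvPolynomial.coe_aeval_eq_eval] at h1 h2
      simp only [RingHom.coe_coe] at h1 h2
      rw [h1, h2]
      simp [mul_comm]
    rw [this]
    apply hf
    · rw [map_sub, map_sub, map_smul, map_smul, he, he']
      simp
    · rw [map_sub, map_sub, map_smul, map_smul, hce, hce']
      simp
  rw [h2, sub_zero] at h
  exact h

/-- a polynomial vanishing at all nonzero multiples of `w` vanishes at all multiples of `w` -/
theorem vanish_zero {m : ℕ} (f : MvPolynomial (Fin m) ℂ) (w : Fin m → ℂ)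
    (h : ∀ t : ℂ, t ≠ 0 → eval (t • w) f = 0) (t : ℂ) : eval (t • w) f = 0 := by
  have hc : Continuous fun t : ℂ => eval (t • w) f :=
    (MvPolynomial.continuous_eval f).comp (continuous_id.smul continuous_const)
  have := Continuous.ext_on (dense_compl_singleton (0 : ℂ)) hc (continuous_const (y := (0 : ℂ)))
    (fun t ht => h t ht)
  exact congrFun this t

/-- Data of a line `ψ = 0` in the plane with a frame `u, v` of its cone, completed by `e`. -/
structure Frame where
  /-- equation of the line -/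
  ψ : (Fin 3 → ℂ) →ₗ[ℂ] ℂ
  /-- first coordinate -/
  ρ : (Fin 3 → ℂ) →ₗ[ℂ] ℂ
  /-- second coordinate -/
  χ : (Fin 3 → ℂ) →ₗ[ℂ] ℂ
  /-- first frame vector -/
  u : Fin 3 → ℂ
  /-- second frame vector -/
  v : Fin 3 → ℂ
  /-- third frame vector -/
  e : Fin 3 → ℂ
  hψu : ψ u = 0
  hψv : ψ v = 0
  hψe : ψ e = 1
  hρu : ρ u = 1
  hρv : ρ v = 0
  hρe : ρ e = 0
  hχu : χ u = 0
  hχv : χ v = 1
  hχe : χ e = 0
  hy : ∀ y, y = ρ y • u + χ y • v + ψ y • e

/-- existence of frames -/
theorem exists_frame (ψ : (Fin 3 → ℂ) →ₗ[ℂ] ℂ) (u v e : Fin 3 → ℂ) (hu : ψ u = 0) (hv : ψ v = 0)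
    (he : ψ e = 1) (huv : LinearIndependent ℂ ![u, v]) :
    ∃ T : Frame, T.ψ = ψ ∧ T.u = u ∧ T.v = v := by
  have hli : LinearIndependent ℂ ![u, v, e] := by
    rw [LinearIndependent.pair_iff] at huv
    rw [Fintype.linearIndependent_iff]
    intro g hg
    simp only [Fin.sum_univ_three, Matrix.cons_val_zero, Matrix.cons_val_one,
      Matrix.cons_val] at hg
    have h2 : g 2 = 0 := by
      have := congrArg ψ hg
      simpa [hu, hv, he] using this
    rw [h2, zero_smul, add_zero] at hg
    obtain ⟨h0, h1⟩ := huv _ _ hg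
    intro i
    fin_cases i
    · exact h0
    · exact h1
    · exact h2
  let b : Module.Basis (Fin 3) ℂ (Fin 3 → ℂ) :=
    basisOfLinearIndependentOfCardEqFinrank hli (by simp)
  have hb : ⇑b = ![u, v, e] := coe_basisOfLinearIndependentOfCardEqFinrank hli _
  have hb0 : b 0 = u := by rw [hb]; rfl
  have hb1 : b 1 = v := by rw [hb]; rfl
  have hb2 : b 2 = e := by rw [hb]; rfl
  have hψ : ψ = b.coord 2 := by
    apply b.ext
    intro i
    have hr : b.coord 2 (b i) = if i = 2 then 1 else 0 := by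
      rw [Module.Basis.coord_apply, Module.Basis.repr_self, Finsupp.single_apply]
    rw [hr]
    fin_cases i
    · change ψ (b 0) = _
      rw [hb0, hu]; simp
    · change ψ (b 1) = _
      rw [hb1, hv]; simp
    · change ψ (b 2) = _
      rw [hb2, he]; simp
  refine ⟨⟨ψ, b.coord 0, b.coord 1, u, v, e, hu, hv, he, ?_, ?_, ?_, ?_, ?_, ?_, ?_⟩, rfl, rfl, rfl⟩
  · rw [← hb0]; simp
  · rw [← hb1]; simp
  · rw [← hb2]; simp
  · rw [← hb0]; simp
  · rw [← hb1]; simp
  · rw [← hb2]; simp
  · intro y
    have := b.sum_repr y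
    simp only [Fin.sum_univ_three, hb0, hb1, hb2] at this
    rw [hψ]
    exact this.symm

/-- polynomials vanishing at points on a line -/
theorem mem_span_line (T : Frame) {κ : Type*} [DecidableEq κ] (s : κ → ℂ)
    (hs : Function.Injective s) (J : Finset κ) (f : MvPolynomial (Fin 3) ℂ)
    (hf : ∀ j ∈ J, ∀ t : ℂ, t ≠ 0 → eval (t • (T.v + s j • T.u)) f = 0) :
    f ∈ Ideal.span {linPoly T.ψ, ∏ j ∈ J, linPoly (T.ρ - s j • T.χ)} := by
  induction J using Finset.induction_on generalizing f with
  | empty =>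
    have : (1 : MvPolynomial (Fin 3) ℂ) ∈
        Ideal.span {linPoly T.ψ, (1 : MvPolynomial (Fin 3) ℂ)} :=
      Ideal.subset_span (by simp)
    rw [Finset.prod_empty, (Ideal.eq_top_iff_one _).mpr this]
    trivial
  | insert j J hj ih =>
    have h1 : f ∈ Ideal.span {linPoly T.ψ, linPoly (T.ρ - s j • T.χ)} := by
      apply mem_span_pair_of_vanish T.ψ (T.ρ - s j • T.χ) T.e T.u T.hψe T.hψu
      · simp [T.hρe, T.hχe]
      · simp [T.hρu, T.hχu]
      · intro y h1 h2
        have h3 : y = T.χ y • (T.v + s j • T.u) := by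
          have h4 := T.hy y
          rw [h1, zero_smul, add_zero] at h4
          have h5 : T.ρ y = s j * T.χ y := by
            simpa [sub_eq_zero] using h2
          conv_lhs => rw [h4]
          rw [h5, smul_add, smul_smul, mul_comm (s j), add_comm]
        rw [h3]
        exact vanish_zero f _ (hf j (Finset.mem_insert_self j J)) _
    rw [Ideal.mem_span_pair] at h1
    obtain ⟨A, B, hAB⟩ := h1
    have h2 : B ∈ Ideal.span {linPoly T.ψ, ∏ j ∈ J, linPoly (T.ρ - s j • T.χ)} := by
      apply ih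
      intro k hk t ht
      have h3 := hf k (Finset.mem_insert_of_mem hk) t ht
      rw [← hAB] at h3
      simp only [map_add, map_mul, eval_linPoly] at h3
      have h4 : T.ψ (t • (T.v + s k • T.u)) = 0 := by simp [T.hψu, T.hψv]
      have h5 : (T.ρ - s j • T.χ) (t • (T.v + s k • T.u)) = t * (s k - s j) := by
        simp [T.hρu, T.hρv, T.hχu, T.hχv]
        ring
      rw [h4, h5, mul_zero, zero_add] at h3
      have hne : s k - s j ≠ 0 := by
        rw [sub_ne_zero]
        intro h
        exact hj (hs h ▸ hk)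
      rcases mul_eq_zero.mp h3 with h | h
      · exact h
      · exact absurd h (mul_ne_zero ht hne)
    rw [Ideal.mem_span_pair] at h2
    obtain ⟨A', B', hAB'⟩ := h2
    rw [Ideal.mem_span_pair, Finset.prod_insert hj]
    refine ⟨A + A' * linPoly (T.ρ - s j • T.χ), B', ?_⟩
    rw [← hAB, ← hAB']
    ring

/-- main ideal computation -/
theorem mem_span_lines {ι κ : Type*} [DecidableEq ι] [Fintype κ] [DecidableEq κ]
    (T : ι → Frame) (s : ι → κ → ℂ) (hs : ∀ i, Function.Injective (s i))
    (F : MvPolynomial (Fin 3) ℂ) (c : ι → ℂ) (hc : ∀ i, c i ≠ 0)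
    (hF : ∀ i, ∀ α β : ℂ, eval (α • (T i).u + β • (T i).v) F = c i * ∏ j, (α - s i j * β))
    (hne : ∀ i i', i ≠ i' → ∀ j, (T i').ψ ((T i).v + s i j • (T i).u) ≠ 0)
    (S : Finset ι) (f : MvPolynomial (Fin 3) ℂ)
    (hf : ∀ i ∈ S, ∀ j, ∀ t : ℂ, t ≠ 0 → eval (t • ((T i).v + s i j • (T i).u)) f = 0) :
    f ∈ Ideal.span {∏ i ∈ S, linPoly (T i).ψ, F} := by
  induction S using Finset.induction_on generalizing f with
  | empty =>
    have : (1 : MvPolynomial (Fin 3) ℂ) ∈ Ideal.span {(1 : MvPolynomial (Fin 3) ℂ), F} :=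
      Ideal.subset_span (by simp)
    rw [Finset.prod_empty, (Ideal.eq_top_iff_one _).mpr this]
    trivial
  | insert i S hi ih =>
    have h1 := mem_span_line (T i) (s i) (hs i) Finset.univ f
      (fun j _ => hf i (Finset.mem_insert_self i S) j)
    set M := ∏ j, linPoly ((T i).ρ - s i j • (T i).χ) with hM
    have h2 : F - C (c i) * M ∈ Ideal.span {linPoly (T i).ψ} := by
      apply mem_span_of_vanish (T i).ψ (T i).e (T i).hψe
      intro y hy
      have h4 := (T i).hy y
      rw [hy, zero_smul, add_zero] at h4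
      have h5 : eval y F = c i * ∏ j, ((T i).ρ y - s i j * (T i).χ y) := by
        conv_lhs => rw [h4]
        exact hF i _ _
      rw [map_sub, map_mul, eval_C, h5, hM, map_prod]
      simp [eval_linPoly]
    rw [Ideal.mem_span_singleton'] at h2
    obtain ⟨A0, hA0⟩ := h2
    rw [Ideal.mem_span_pair] at h1
    obtain ⟨A, B, hAB⟩ := h1
    -- f = A' ℓ + B' F
    have h3 : ∃ A' B', A' * linPoly (T i).ψ + B' * F = f := by
      refine ⟨A - B * C (c i)⁻¹ * A0, B * C (c i)⁻¹, ?_⟩
      have h6 : C (c i)⁻¹ * C (c i) = (1 : MvPolynomial (Fin 3) ℂ) := by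
        rw [← C_mul, inv_mul_cancel₀ (hc i), C_1]
      have h7 : F = A0 * linPoly (T i).ψ + C (c i) * M := by rw [hA0]; ring
      rw [← hAB]
      calc (A - B * C (c i)⁻¹ * A0) * linPoly (T i).ψ + B * C (c i)⁻¹ * F
          = (A - B * C (c i)⁻¹ * A0) * linPoly (T i).ψ
            + B * C (c i)⁻¹ * (A0 * linPoly (T i).ψ + C (c i) * M) := by rw [← h7]
        _ = A * linPoly (T i).ψ + B * (C (c i)⁻¹ * C (c i)) * M := by ring
        _ = A * linPoly (T i).ψ + B * M := by rw [h6, mul_one]
    obtain ⟨A', B', hAB'⟩ := h3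
    have h8 : A' ∈ Ideal.span {∏ i ∈ S, linPoly (T i).ψ, F} := by
      apply ih
      intro k hk j t ht
      have hki : k ≠ i := fun h => hi (h ▸ hk)
      have h9 := hf k (Finset.mem_insert_of_mem hk) j t ht
      rw [← hAB'] at h9
      have h10 : eval (t • ((T k).v + s k j • (T k).u)) F = 0 := by
        have : t • ((T k).v + s k j • (T k).u) = (t * s k j) • (T k).u + t • (T k).v := by
          rw [smul_add, smul_smul, add_comm]
        rw [this, hF k]
        apply mul_eq_zero_of_right
        apply Finset.prod_eq_zero (Finset.mem_univ j)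
        ring
      simp only [map_add, map_mul, eval_linPoly, h10, mul_zero, add_zero] at h9
      rcases mul_eq_zero.mp h9 with h | h
      · exact h
      · exfalso
        rw [map_smul, smul_eq_mul] at h
        exact mul_ne_zero ht (hne k i hki j) h
    rw [Ideal.mem_span_pair] at h8
    obtain ⟨A'', B'', hAB''⟩ := h8
    rw [Ideal.mem_span_pair, Finset.prod_insert hi]
    refine ⟨A'', B' + B'' * linPoly (T i).ψ, ?_⟩
    rw [← hAB', ← hAB'']
    ring

end Pool.Agent.Work.MP_586029_ag
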