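import Mathlib
import Pool.Agent.Work.MP_586029_ag.PartA
import Pool.Agent.Work.MP_586029_ag.Defs

namespace Pool.Agent.Work.MP_586029_ag

open MvPolynomial

theorem eval_smul_of_homogeneous {m d : ℕ} {f : MvPolynomial (Fin m) ℂ} (hf : f.IsHomogeneous d)
    (t : ℂ) (w : Fin m → ℂ) : eval (t • w) f = t ^ d * eval w f := by
  rw [MvPolynomial.eval_eq, MvPolynomial.eval_eq, Finset.mul_sum]
  refine Finset.sum_congr rfl fun a ha => ?_
  have h1 : a.degree = d := by
    by_contra h
    exact (MvPolynomial.mem_support_iff.mp ha) (hf.coeff_eq_zero h)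
  have h2 : ∏ i ∈ a.support, (t • w) i ^ a i = t ^ d * ∏ i ∈ a.support, w i ^ a i := by
    simp only [Pi.smul_apply, smul_eq_mul, mul_pow]
    rw [Finset.prod_mul_distrib, Finset.prod_pow_eq_pow_sum]
    congr 2
  rw [h2]
  ring

theorem isRegular_pair {m : ℕ} (a b : MvPolynomial (Fin m) ℂ) (ha : a ≠ 0) (hab : IsRelPrime a b)
    (h0 : ∃ y, eval y a = 0 ∧ eval y b = 0) :
    RingTheory.Sequence.IsRegular (MvPolynomial (Fin m) ℂ) [a, b] := by
  refine ⟨⟨?_⟩, ?_⟩
  · intro i hi
    rw [isSMulRegular_quotient_iff_mem_of_smul_mem]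
    intro x hx
    have hi' : i < 2 := by simpa using hi
    interval_cases i
    · simp only [List.take_zero, Ideal.ofList_nil, List.getElem_cons_zero, smul_eq_mul] at hx ⊢
      rw [Ideal.mul_top, Ideal.mem_bot] at hx ⊢
      exact (mul_eq_zero.mp hx).resolve_left ha
    · simp only [List.take_succ_cons, List.take_zero, List.getElem_cons_succ,
        List.getElem_cons_zero, smul_eq_mul, Ideal.ofList_singleton] at hx ⊢
      rw [Ideal.mul_top, Ideal.mem_span_singleton] at hx ⊢
      exact hab.dvd_of_dvd_mul_left hx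
  · intro htop
    obtain ⟨y, hya, hyb⟩ := h0
    have h1 : (1 : MvPolynomial (Fin m) ℂ) ∈
        (Ideal.ofList [a, b] • ⊤ : Submodule (MvPolynomial (Fin m) ℂ) (MvPolynomial (Fin m) ℂ)) := by
      rw [← htop]; trivial
    rw [smul_eq_mul, Ideal.mul_top] at h1
    have h2 : Ideal.ofList [a, b] ≤ RingHom.ker (eval y : MvPolynomial (Fin m) ℂ →+* ℂ) := by
      rw [Ideal.ofList, Ideal.span_le]
      intro z hz
      simp only [List.mem_cons, List.not_mem_nil, or_false, Set.mem_ofPred_eq] at hz
      rcases hz with h | h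
      · rw [h]; exact hya
      · rw [h]; exact hyb
    have h3 := h2 h1
    rw [RingHom.mem_ker, map_one] at h3
    exact one_ne_zero h3

/-- a nonzero linear form is irreducible -/
theorem irreducible_linPoly {m : ℕ} (ψ : (Fin m → ℂ) →ₗ[ℂ] ℂ) (e : Fin m → ℂ) (he : ψ e = 1) :
    Irreducible (linPoly ψ) := by
  have hne : linPoly ψ ≠ 0 := by
    intro h
    have := eval_linPoly ψ e
    rw [h, map_zero, he] at this
    exact zero_ne_one this
  apply irreducible_of_totalDegree_eq_one
  · exact (isHomogeneous_linPoly ψ).totalDegree hne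
  · intro x hx
    rcases eq_or_ne x 0 with h | h
    · exfalso
      apply hne
      ext i
      have := hx i
      rw [h, zero_dvd_iff] at this
      rw [this, coeff_zero]
    · exact isUnit_iff_ne_zero.mpr h

theorem isCompleteIntersection_of_lines {ι κ : Type*} [Fintype ι] [DecidableEq ι] [Fintype κ]
    [DecidableEq κ] [Nonempty ι] [Nonempty κ]
    (T : ι → Frame) (s : ι → κ → ℂ) (hs : ∀ i, Function.Injective (s i))
    (F : MvPolynomial (Fin 3) ℂ) (d : ℕ) (hd : F.IsHomogeneous d) (c : ι → ℂ) (hc : ∀ i, c i ≠ 0)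
    (hF : ∀ i, ∀ α β : ℂ, eval (α • (T i).u + β • (T i).v) F = c i * ∏ j, (α - s i j * β))
    (hne : ∀ i i', i ≠ i' → ∀ j, (T i').ψ ((T i).v + s i j • (T i).u) ≠ 0)
    (Y : Set (Projectivization ℂ (Fin 3 → ℂ)))
    (hY : ∀ q, q ∈ Y ↔ ∃ i j, q.submodule = Submodule.span ℂ {(T i).v + s i j • (T i).u}) :
    IsCompleteIntersection Y := by
  classical
  -- the points are nonzero vectors
  have hnz : ∀ i j, (T i).v + s i j • (T i).u ≠ 0 := by
    intro i j h
    have := congrArg (T i).χ h
    simp [(T i).hχv, (T i).hχu] at this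
  have hG : (∏ i, linPoly (T i).ψ).IsHomogeneous (∑ i : ι, 1) :=
    IsHomogeneous.prod _ _ _ fun i _ => isHomogeneous_linPoly (T i).ψ
  have hGne : (∏ i, linPoly (T i).ψ) ≠ 0 := by
    rw [Finset.prod_ne_zero_iff]
    intro i _
    exact (irreducible_linPoly _ _ (T i).hψe).ne_zero
  have hGv : ∀ i j, eval ((T i).v + s i j • (T i).u) (∏ i, linPoly (T i).ψ) = 0 := by
    intro i j
    rw [map_prod]
    apply Finset.prod_eq_zero (Finset.mem_univ i)
    rw [eval_linPoly]
    simp [(T i).hψv, (T i).hψu]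
  have hFv : ∀ i j, eval ((T i).v + s i j • (T i).u) F = 0 := by
    intro i j
    have h := hF i (s i j) 1
    rw [one_smul, add_comm] at h
    rw [h]
    apply mul_eq_zero_of_right
    apply Finset.prod_eq_zero (Finset.mem_univ j)
    ring
  -- representatives
  have hrep : ∀ q ∈ Y, ∃ i j, ∃ t : ℂ, t ≠ 0 ∧ q.rep = t • ((T i).v + s i j • (T i).u) := by
    intro q hq
    obtain ⟨i, j, h⟩ := (hY q).mp hq
    have h1 : q.rep ∈ q.submodule := by
      rw [Projectivization.submodule_eq]; exact Submodule.mem_span_singleton_self _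
    rw [h, Submodule.mem_span_singleton] at h1
    obtain ⟨t, ht⟩ := h1
    refine ⟨i, j, t, ?_, ht.symm⟩
    rintro rfl
    rw [zero_smul] at ht
    exact q.rep_nonzero ht.symm
  refine ⟨![∏ i, linPoly (T i).ψ, F], ?_, ?_, ?_⟩
  · intro i
    fin_cases i
    · exact ⟨_, hG⟩
    · exact ⟨d, hd⟩
  · have : List.ofFn ![∏ i, linPoly (T i).ψ, F] = [∏ i, linPoly (T i).ψ, F] := by
      simp [List.ofFn_succ]
    rw [this]
    apply isRegular_pair _ _ hGne
    · apply IsRelPrime.prod_left
      intro i _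
      rw [(irreducible_linPoly _ _ (T i).hψe).isRelPrime_iff_not_dvd]
      rintro ⟨q, hq⟩
      -- evaluate at u
      have hinf : (Set.univ : Set ℂ).Infinite := Set.infinite_univ
      obtain ⟨a, ha⟩ : ∃ a : ℂ, a ∉ Set.range (s i) :=
        (Set.finite_range (s i)).exists_notMem
      have h1 := hF i a 1
      rw [hq, map_mul, eval_linPoly] at h1
      have h2 : (T i).ψ (a • (T i).u + (1 : ℂ) • (T i).v) = 0 := by
        simp [(T i).hψv, (T i).hψu]
      rw [h2, zero_mul] at h1
      have h3 : c i * ∏ j, (a - s i j * 1) ≠ 0 := by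
        apply mul_ne_zero (hc i)
        rw [Finset.prod_ne_zero_iff]
        intro j _
        rw [mul_one, sub_ne_zero]
        intro h
        exact ha ⟨j, h.symm⟩
      exact h3 h1.symm
    · obtain ⟨i⟩ := ‹Nonempty ι›
      obtain ⟨j⟩ := ‹Nonempty κ›
      exact ⟨_, hGv i j, hFv i j⟩
  · have hrange : Set.range ![∏ i, linPoly (T i).ψ, F] = {∏ i, linPoly (T i).ψ, F} := by
      rw [Matrix.range_cons, Matrix.range_cons, Matrix.range_empty]
      simp [Set.pair_comm]
    rw [hrange]
    apply le_antisymm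
    · rw [Ideal.span_le]
      intro z hz
      have hz' : z = ∏ i, linPoly (T i).ψ ∨ z = F := by simpa using hz
      apply Ideal.subset_span
      rcases hz' with h | h
      · rw [h]
        refine ⟨⟨_, hG⟩, ?_⟩
        intro y hy
        obtain ⟨i, j, t, ht, hyt⟩ := hrep y hy
        rw [hyt, eval_smul_of_homogeneous hG, hGv, mul_zero]
      · rw [h]
        refine ⟨⟨_, hd⟩, ?_⟩
        intro y hy
        obtain ⟨i, j, t, ht, hyt⟩ := hrep y hy
        rw [hyt, eval_smul_of_homogeneous hd, hFv, mul_zero]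
    · rw [homogeneousIdeal, Ideal.span_le]
      rintro f ⟨⟨n, hn⟩, hf⟩
      have := mem_span_lines T s hs F c hc hF hne Finset.univ f (by
        intro i _ j t ht
        rw [eval_smul_of_homogeneous hn]
        have hmem : Projectivization.mk ℂ _ (hnz i j) ∈ Y := by
          rw [hY]
          exact ⟨i, j, Projectivization.submodule_mk _ _⟩
        obtain ⟨a, ha⟩ := Projectivization.exists_smul_eq_mk_rep ℂ _ (hnz i j)
        have h1 := hf _ hmem
        rw [← ha] at h1
        have h2 : (a • ((T i).v + s i j • (T i).u) : Fin 3 → ℂ) =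
            (a : ℂ) • ((T i).v + s i j • (T i).u) := rfl
        rw [h2, eval_smul_of_homogeneous hn] at h1
        rcases mul_eq_zero.mp h1 with h | h
        · exact absurd h (pow_ne_zero _ a.ne_zero)
        · rw [h, mul_zero])
      exact this

end Pool.Agent.Work.MP_586029_ag
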