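import Mathlib
import Pool.Agent.Work.MP_586029_ag.PartB

namespace Pool.Agent.Work.MP_586029_ag

open MvPolynomial

section config

variable {K : Type*} [Field K]

/-- base points of the four lines -/
def base (ω : K) : Option (Fin 3) → Fin 4 → K
  | none => ![0, 1, 0, 0]
  | some i => ![1, 0, ω ^ (i : ℕ), 0]

/-- directions of the four lines -/
def dir (ω : K) : Option (Fin 3) → Fin 4 → K
  | none => ![0, 0, 1, 0]
  | some i => ![0, 1, 0, ω ^ (i : ℕ)]

/-- parameters of the six points on each line -/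
def par (ω t : K) : Option (Fin 3) → Fin 2 × Fin 3 → K
  | none, (c, k) => -(ω ^ (k : ℕ) / t ^ (c : ℕ))
  | some _, (c, k) => t ^ (c : ℕ) * ω ^ (k : ℕ)

/-- the 24 vectors -/
def vec (ω t : K) (i : Option (Fin 3)) (j : Fin 2 × Fin 3) : Fin 4 → K :=
  base ω i + par ω t i j • dir ω i

end config

theorem omega_ne {ω : ℂ} (h : ω ^ 2 + ω + 1 = 0) {i j : Fin 3} (hij : ω ^ (i : ℕ) = ω ^ (j : ℕ)) :
    i = j := by
  have h1 : ω ≠ 1 := by rintro rfl; norm_num at h
  have h0 : ω ≠ 0 := by rintro rfl; norm_num at h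
  have h2 : ω ^ 2 ≠ 1 := by
    intro h'
    have : ω = -2 := by linear_combination h - h'
    rw [this] at h; norm_num at h
  have h3 : ω ^ 2 ≠ ω := by
    intro h'
    have : ω * (ω - 1) = 0 := by linear_combination h'
    rcases mul_eq_zero.mp this with h | h
    · exact h0 h
    · exact h1 (sub_eq_zero.mp h)
  fin_cases i <;> fin_cases j <;> simp_all [eq_comm]

theorem omega_cube {ω : ℂ} (h : ω ^ 2 + ω + 1 = 0) : ω ^ 3 = 1 := by
  linear_combination (ω - 1) * h

theorem omega_pow_cube {ω : ℂ} (h : ω ^ 2 + ω + 1 = 0) (k : ℕ) : (ω ^ k) ^ 3 = 1 := by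
  rw [← pow_mul, mul_comm, pow_mul, omega_cube h, one_pow]

theorem omega_ne_zero {ω : ℂ} (h : ω ^ 2 + ω + 1 = 0) : ω ≠ 0 := by
  rintro rfl; norm_num at h

/-- injectivity of parameters -/
theorem par_injective {ω t : ℂ} (h : ω ^ 2 + ω + 1 = 0) (ht0 : t ≠ 0) (ht : t ^ 3 ≠ 1)
    (i : Option (Fin 3)) : Function.Injective (par ω t i) := by
  have key : ∀ (c c' : Fin 2) (k k' : Fin 3), t ^ (c : ℕ) * ω ^ (k : ℕ) = t ^ (c' : ℕ) * ω ^ (k' : ℕ) →
      c = c' ∧ k = k' := by
    intro c c' k k' he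
    have h3 := congrArg (fun z => z ^ 3) he
    simp only [mul_pow, omega_pow_cube h, mul_one] at h3
    have hc : c = c' := by
      fin_cases c <;> fin_cases c' <;> simp_all
    subst hc
    refine ⟨rfl, ?_⟩
    apply omega_ne h
    exact mul_left_cancel₀ (pow_ne_zero _ ht0) he
  intro ⟨c, k⟩ ⟨c', k'⟩ he
  cases i with
  | some i =>
    simp only [par] at he
    obtain ⟨h1, h2⟩ := key c c' k k' he
    rw [h1, h2]
  | none =>
    simp only [par, neg_inj] at he
    rw [div_eq_div_iff (pow_ne_zero _ ht0) (pow_ne_zero _ ht0)] at he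
    have h3 := congrArg (fun z => z ^ 3) he
    simp only [mul_pow, omega_pow_cube h, one_mul] at h3
    have hc : c = c' := by
      fin_cases c <;> fin_cases c' <;> simp_all
    subst hc
    have : k = k' := by
      apply omega_ne h
      exact mul_right_cancel₀ (pow_ne_zero _ ht0) he
    rw [this]

theorem prod_par_some {ω t : ℂ} (h : ω ^ 2 + ω + 1 = 0) (i : Fin 3) (a b : ℂ) :
    ∏ j, (a - par ω t (some i) j * b) = (a ^ 3 - b ^ 3) * (a ^ 3 - t ^ 3 * b ^ 3) := by
  simp only [par, Fintype.prod_prod_type, Fin.prod_univ_two, Fin.prod_univ_three]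
  have key : ∀ x : ℂ, (a - x * ω ^ 0 * b) * (a - x * ω ^ 1 * b) * (a - x * ω ^ 2 * b) =
      a ^ 3 - x ^ 3 * b ^ 3 := by
    intro x
    linear_combination (-x * b * a ^ 2 + ω * x ^ 2 * b ^ 2 * a - (ω - 1) * x ^ 3 * b ^ 3) * h
  have h1 := key 1
  have h2 := key t
  simp only [Fin.val_zero, Fin.val_one, Fin.val_two, pow_zero, pow_one, one_mul, mul_one,
    one_pow] at *
  rw [h1, h2]

theorem prod_par_none {ω t : ℂ} (h : ω ^ 2 + ω + 1 = 0) (a b : ℂ) :
    ∏ j, (a - par ω t none j * b) = (a ^ 3 + b ^ 3) * (a ^ 3 + b ^ 3 / t ^ 3) := by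
  simp only [par, Fintype.prod_prod_type, Fin.prod_univ_two, Fin.prod_univ_three]
  have key : ∀ x : ℂ, (a - -(ω ^ 0 * x) * b) * (a - -(ω ^ 1 * x) * b) * (a - -(ω ^ 2 * x) * b) =
      a ^ 3 + x ^ 3 * b ^ 3 := by
    intro x
    linear_combination (x * b * a ^ 2 + ω * x ^ 2 * b ^ 2 * a + (ω - 1) * x ^ 3 * b ^ 3) * h
  have h1 := key 1
  have h2 := key (t⁻¹)
  simp only [Fin.val_zero, Fin.val_one, Fin.val_two, pow_zero, pow_one, one_mul, mul_one,
    one_pow, inv_one, inv_pow, div_eq_mul_inv] at *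
  rw [h1, h2]
  ring

/-- value of the cubic cone -/
def coneEval (τ : ℂ) (P X : Fin 4 → ℂ) : ℂ :=
  τ * ((P 0 * X 1 - P 1 * X 0) ^ 3 - 2 * (P 0 * X 3 - P 3 * X 0) ^ 3
    + (P 2 * X 3 - P 3 * X 2) ^ 3
    + 3 * (P 0 * X 3 - P 3 * X 0) ^ 2 * (P 1 * X 2 - P 2 * X 1)
    - 3 * (P 0 * X 3 - P 3 * X 0) * (P 1 * X 2 - P 2 * X 1) ^ 2
    + 6 * (P 0 * X 1 - P 1 * X 0) * (P 2 * X 3 - P 3 * X 2) * (P 0 * X 3 - P 3 * X 0))
  + τ ^ 2 * (P 0 * X 2 - P 2 * X 0) ^ 3 + (P 1 * X 3 - P 3 * X 1) ^ 3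

/-- the Pluecker form `P i * X j - P j * X i` -/
noncomputable def plu (P : Fin 4 → ℂ) (i j : Fin 4) : MvPolynomial (Fin 4) ℂ :=
  C (P i) * X j - C (P j) * X i

theorem plu_hom (P : Fin 4 → ℂ) (i j : Fin 4) : (plu P i j).IsHomogeneous 1 := by
  apply IsHomogeneous.sub
  · simpa using (isHomogeneous_C (Fin 4) (P i)).mul (isHomogeneous_X ℂ j)
  · simpa using (isHomogeneous_C (Fin 4) (P j)).mul (isHomogeneous_X ℂ i)

/-- the cubic cone as a polynomial -/
noncomputable def conePoly (τ : ℂ) (P : Fin 4 → ℂ) : MvPolynomial (Fin 4) ℂ :=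
  C τ * (plu P 0 1 ^ 3 - C 2 * plu P 0 3 ^ 3 + plu P 2 3 ^ 3
    + C 3 * plu P 0 3 ^ 2 * plu P 1 2 - C 3 * plu P 0 3 * plu P 1 2 ^ 2
    + C 6 * plu P 0 1 * plu P 2 3 * plu P 0 3)
  + C (τ ^ 2) * plu P 0 2 ^ 3 + plu P 1 3 ^ 3

theorem eval_conePoly (τ : ℂ) (P X : Fin 4 → ℂ) : eval X (conePoly τ P) = coneEval τ P X := by
  simp [conePoly, coneEval, plu]

theorem conePoly_hom (τ : ℂ) (P : Fin 4 → ℂ) : (conePoly τ P).IsHomogeneous 3 := by
  have hC : ∀ (c : ℂ) {f : MvPolynomial (Fin 4) ℂ} {n : ℕ}, f.IsHomogeneous n →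
      (C c * f).IsHomogeneous n := fun c f n hf => by
    simpa using (isHomogeneous_C (Fin 4) c).mul hf
  have h3 : ∀ i j, (plu P i j ^ 3).IsHomogeneous 3 := fun i j => by
    simpa using (plu_hom P i j).pow 3
  have h2 : ∀ i j, (plu P i j ^ 2).IsHomogeneous 2 := fun i j => by
    simpa using (plu_hom P i j).pow 2
  unfold conePoly
  refine IsHomogeneous.add (IsHomogeneous.add (hC _ ?_) (hC _ (h3 _ _))) (h3 _ _)
  refine IsHomogeneous.add (IsHomogeneous.sub (IsHomogeneous.add (IsHomogeneous.add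
    (IsHomogeneous.sub (h3 _ _) (hC _ (h3 _ _))) (h3 _ _)) ?_) ?_) ?_
  · exact (hC 3 (h2 0 3)).mul (plu_hom P 1 2)
  · exact (hC 3 (plu_hom P 0 3)).mul (h2 1 2)
  · exact ((hC 6 (plu_hom P 0 1)).mul (plu_hom P 2 3)).mul (plu_hom P 0 3)

theorem coneEval_add (τ : ℂ) (P X : Fin 4 → ℂ) (a : ℂ) :
    coneEval τ P (X + a • P) = coneEval τ P X := by
  have h : ∀ i j, P i * (X + a • P) j - P j * (X + a • P) i = P i * X j - P j * X i := by
    intro i j
    simp only [Pi.add_apply, Pi.smul_apply, smul_eq_mul]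
    ring
  simp only [coneEval, h]

theorem coneEval_some (τ : ℂ) (P : Fin 4 → ℂ) (α a b : ℂ) (hα : α ^ 3 = 1) :
    coneEval τ P ![b, a, α * b, α * a] =
      (a ^ 3 - τ * b ^ 3) * (τ * (P 2 - α * P 0) ^ 3 - (P 3 - α * P 1) ^ 3) := by
  simp only [coneEval, Matrix.cons_val_zero, Matrix.cons_val_one, Matrix.cons_val]
  linear_combination (-3 * a * b ^ 2 * P 0 * P 1 ^ 2 * τ + 3 * a * b ^ 2 * P 2 * τ * P 3 ^ 2
    + 3 * a ^ 2 * b * P 0 ^ 2 * P 1 * τ - 3 * a ^ 2 * b * P 2 ^ 2 * τ * P 3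
    - a ^ 3 * P 0 ^ 3 * τ + a ^ 3 * P 2 ^ 3 * τ + b ^ 3 * P 1 ^ 3 * τ - b ^ 3 * τ * P 3 ^ 3) * hα

theorem coneEval_none (τ : ℂ) (P : Fin 4 → ℂ) (a b : ℂ) :
    coneEval τ P ![0, b, a, 0] = (τ * P 0 ^ 3 - P 3 ^ 3) * (b ^ 3 + τ * a ^ 3) := by
  simp only [coneEval, Matrix.cons_val_zero, Matrix.cons_val_one, Matrix.cons_val]
  ring

/-- equation of the plane spanned by `P` and the line `i` -/
def hEval (ω : ℂ) : Option (Fin 3) → (Fin 4 → ℂ) → (Fin 4 → ℂ) → ℂ
  | none, P, X => P 3 * X 0 - P 0 * X 3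
  | some i, P, X => (P 3 - ω ^ (i : ℕ) * P 1) * (X 2 - ω ^ (i : ℕ) * X 0)
      - (P 2 - ω ^ (i : ℕ) * P 0) * (X 3 - ω ^ (i : ℕ) * X 1)

/-- `hEval` as a linear form in `X` -/
def hLin (ω : ℂ) (i : Option (Fin 3)) (P : Fin 4 → ℂ) : (Fin 4 → ℂ) →ₗ[ℂ] ℂ where
  toFun := hEval ω i P
  map_add' x y := by
    cases i <;> simp only [hEval, Pi.add_apply] <;> ring
  map_smul' c x := by
    cases i <;> simp only [hEval, Pi.smul_apply, smul_eq_mul, RingHom.id_apply] <;> ring

theorem hLin_apply (ω : ℂ) (i : Option (Fin 3)) (P X : Fin 4 → ℂ) :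
    hLin ω i P X = hEval ω i P X := rfl

theorem hEval_self (ω : ℂ) (i : Option (Fin 3)) (P : Fin 4 → ℂ) : hEval ω i P P = 0 := by
  cases i <;> simp only [hEval] <;> ring

theorem hEval_line (ω : ℂ) (i : Option (Fin 3)) (P : Fin 4 → ℂ) (a b : ℂ) :
    hEval ω i P (a • dir ω i + b • base ω i) = 0 := by
  cases i
  · simp [hEval, dir, base]
  · simp only [hEval, dir, base, Pi.add_apply, Pi.smul_apply, smul_eq_mul, Matrix.cons_val_zero,
      Matrix.cons_val_one, Matrix.cons_val]
    ring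

theorem hEval_of_mem (ω : ℂ) (i : Option (Fin 3)) (X : Fin 4 → ℂ) (a b : ℂ) :
    hEval ω i (a • dir ω i + b • base ω i) X = 0 := by
  cases i
  · simp [hEval, dir, base]
  · simp only [hEval, dir, base, Pi.add_apply, Pi.smul_apply, smul_eq_mul, Matrix.cons_val_zero,
      Matrix.cons_val_one, Matrix.cons_val]
    ring

/-- `hEval` as a polynomial in `P` -/
noncomputable def hPoly (ω : ℂ) : Option (Fin 3) → (Fin 4 → ℂ) → MvPolynomial (Fin 4) ℂ
  | none, x => C (x 0) * X 3 - C (x 3) * X 0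
  | some i, x => C (x 2 - ω ^ (i : ℕ) * x 0) * (X 3 - C (ω ^ (i : ℕ)) * X 1)
      - C (x 3 - ω ^ (i : ℕ) * x 1) * (X 2 - C (ω ^ (i : ℕ)) * X 0)

theorem eval_hPoly (ω : ℂ) (i : Option (Fin 3)) (P x : Fin 4 → ℂ) :
    eval P (hPoly ω i x) = hEval ω i P x := by
  cases i <;> (simp [hPoly, hEval]; ring)

/-- leading constants of the sextic cone on the four lines -/
def cEval (ω t : ℂ) : Option (Fin 3) → (Fin 4 → ℂ) → ℂ
  | none, P => (P 0 ^ 3 - P 3 ^ 3) * (t ^ 3 * P 0 ^ 3 - P 3 ^ 3) * t ^ 3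
  | some i, P => ((P 2 - ω ^ (i : ℕ) * P 0) ^ 3 - (P 3 - ω ^ (i : ℕ) * P 1) ^ 3) *
      (t ^ 3 * (P 2 - ω ^ (i : ℕ) * P 0) ^ 3 - (P 3 - ω ^ (i : ℕ) * P 1) ^ 3)

/-- `cEval` as a polynomial -/
noncomputable def cPoly (ω t : ℂ) : Option (Fin 3) → MvPolynomial (Fin 4) ℂ
  | none => (X 0 ^ 3 - X 3 ^ 3) * (C (t ^ 3) * X 0 ^ 3 - X 3 ^ 3) * C (t ^ 3)
  | some i => ((X 2 - C (ω ^ (i : ℕ)) * X 0) ^ 3 - (X 3 - C (ω ^ (i : ℕ)) * X 1) ^ 3) *
      (C (t ^ 3) * (X 2 - C (ω ^ (i : ℕ)) * X 0) ^ 3 - (X 3 - C (ω ^ (i : ℕ)) * X 1) ^ 3)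

theorem eval_cPoly (ω t : ℂ) (i : Option (Fin 3)) (P : Fin 4 → ℂ) :
    eval P (cPoly ω t i) = cEval ω t i P := by
  cases i <;> simp [cPoly, cEval]

theorem hPoly_hom (ω : ℂ) (i : Option (Fin 3)) (x : Fin 4 → ℂ) : (hPoly ω i x).IsHomogeneous 1 := by
  have hC : ∀ (c : ℂ) {f : MvPolynomial (Fin 4) ℂ} {n : ℕ}, f.IsHomogeneous n →
      (C c * f).IsHomogeneous n := fun c f n hf => by
    simpa using (isHomogeneous_C (Fin 4) c).mul hf
  cases i with
  | none => exact (hC _ (isHomogeneous_X ℂ 3)).sub (hC _ (isHomogeneous_X ℂ 0))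
  | some i =>
    exact (hC _ ((isHomogeneous_X ℂ 3).sub (hC _ (isHomogeneous_X ℂ 1)))).sub
      (hC _ ((isHomogeneous_X ℂ 2).sub (hC _ (isHomogeneous_X ℂ 0))))

theorem cPoly_hom (ω t : ℂ) (i : Option (Fin 3)) : ∃ d, (cPoly ω t i).IsHomogeneous d := by
  have hC : ∀ (c : ℂ) {f : MvPolynomial (Fin 4) ℂ} {n : ℕ}, f.IsHomogeneous n →
      (C c * f).IsHomogeneous n := fun c f n hf => by
    simpa using (isHomogeneous_C (Fin 4) c).mul hf
  have hX := fun i => isHomogeneous_X (σ := Fin 4) ℂ i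
  cases i with
  | none =>
    exact ⟨_, ((((hX 0).pow 3).sub ((hX 3).pow 3)).mul
      ((hC _ ((hX 0).pow 3)).sub ((hX 3).pow 3))).mul (isHomogeneous_C (Fin 4) _)⟩
  | some i =>
    have h1 := ((hX 2).sub (hC (ω ^ (i : ℕ)) (hX 0))).pow 3
    have h2 := ((hX 3).sub (hC (ω ^ (i : ℕ)) (hX 1))).pow 3
    exact ⟨_, (h1.sub h2).mul ((hC _ h1).sub h2)⟩

/-- the set of 24 points -/
def ZZ (ω t : ℂ) : Set (Projectivization ℂ (Fin 4 → ℂ)) :=
  {z | ∃ i j, z.submodule = Submodule.span ℂ {vec ω t i j}}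

theorem line_indep {ω : ℂ} (i : Option (Fin 3)) (a b : ℂ)
    (h : a • dir ω i + b • base ω i = 0) : a = 0 ∧ b = 0 := by
  cases i with
  | none =>
    have h1 := congrFun h 1
    have h2 := congrFun h 2
    simp [dir, base] at h1 h2
    exact ⟨h2, h1⟩
  | some i =>
    have h1 := congrFun h 1
    have h0 := congrFun h 0
    simp [dir, base] at h1 h0
    exact ⟨h1, h0⟩

theorem vec_ne_zero {ω t : ℂ} (i : Option (Fin 3)) (j : Fin 2 × Fin 3) : vec ω t i j ≠ 0 := by
  intro h
  have := line_indep (ω := ω) i (par ω t i j) 1 (by rw [one_smul, add_comm]; exact h)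
  exact one_ne_zero this.2

theorem coneEval_frame {ω t : ℂ} (h : ω ^ 2 + ω + 1 = 0) (ht0 : t ≠ 0) (i : Option (Fin 3))
    (P : Fin 4 → ℂ) (a b : ℂ) :
    coneEval 1 P (a • dir ω i + b • base ω i) * coneEval (t ^ 3) P (a • dir ω i + b • base ω i) =
      cEval ω t i P * ∏ j, (a - par ω t i j * b) := by
  cases i with
  | none =>
    have hX : a • dir ω none + b • base ω none = ![0, b, a, 0] := by
      ext k; fin_cases k <;> simp [dir, base]
    rw [hX, coneEval_none, coneEval_none, prod_par_none h]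
    simp only [cEval]
    field_simp
    ring
  | some i =>
    have hX : a • dir ω (some i) + b • base ω (some i) =
        ![b, a, ω ^ (i : ℕ) * b, ω ^ (i : ℕ) * a] := by
      ext k; fin_cases k <;> simp [dir, base, mul_comm]
    rw [hX, coneEval_some _ _ _ _ _ (omega_pow_cube h i), coneEval_some _ _ _ _ _
      (omega_pow_cube h i), prod_par_some h]
    simp only [cEval]
    ring

/-- the index type of the genericity conditions -/
theorem isGeproci_ZZ {ω t : ℂ} (h : ω ^ 2 + ω + 1 = 0) (ht0 : t ≠ 0) (ht : t ^ 3 ≠ 1) :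
    IsGeproci (n := 3) (ZZ ω t) := by
  classical
  set D1 : MvPolynomial (Fin 4) ℂ := ∏ i : Option (Fin 3), ∏ i' : Option (Fin 3),
    ∏ j : Fin 2 × Fin 3, if i = i' then 1 else hPoly ω i' (vec ω t i j) with hD1
  set D2 : MvPolynomial (Fin 4) ℂ := ∏ i : Option (Fin 3), cPoly ω t i with hD2
  have hhom : ∃ d, (D1 * D2).IsHomogeneous d := by
    have h1 : D1.IsHomogeneous (∑ i : Option (Fin 3), ∑ i' : Option (Fin 3),
        ∑ j : Fin 2 × Fin 3, if i = i' then 0 else 1) := by
      refine IsHomogeneous.prod _ _ _ fun i _ => IsHomogeneous.prod _ _ _ fun i' _ =>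
        IsHomogeneous.prod _ _ _ fun j _ => ?_
      split_ifs
      · exact isHomogeneous_one _ _
      · exact hPoly_hom _ _ _
    choose d hd using cPoly_hom ω t
    have h2 : D2.IsHomogeneous (∑ i, d i) := IsHomogeneous.prod _ _ _ fun i _ => hd i
    exact ⟨_, h1.mul h2⟩
  have hD0 : eval ![0, 0, 0, 1] (D1 * D2) ≠ 0 := by
    rw [map_mul, hD1, hD2]
    simp only [map_prod]
    apply mul_ne_zero
    · rw [Finset.prod_ne_zero_iff]
      intro i _
      rw [Finset.prod_ne_zero_iff]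
      intro i' _
      rw [Finset.prod_ne_zero_iff]
      intro j _
      split_ifs with hii
      · simp
      · rw [eval_hPoly]
        cases i with
        | none =>
          cases i' with
          | none => exact absurd rfl hii
          | some i' =>
            obtain ⟨c, k⟩ := j
            simp [hEval, vec, base, dir, par, omega_ne_zero h, ht0]
        | some i =>
          cases i' with
          | none =>
            simp [hEval, vec, base, dir]
          | some i' =>
            simp only [hEval, vec, base, dir, Matrix.cons_val, Pi.add_apply, Pi.smul_apply,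
              smul_eq_mul, Matrix.cons_val_zero, Matrix.cons_val_one]
            have : ω ^ (i : ℕ) - ω ^ (i' : ℕ) ≠ 0 := by
              rw [sub_ne_zero]
              intro he
              exact hii (congrArg some (omega_ne h he))
            intro h'
            apply this
            linear_combination h'
    · rw [Finset.prod_ne_zero_iff]
      intro i _
      rw [eval_cPoly]
      cases i <;> simp [cEval, ht0]
  refine ⟨D1 * D2, ?_, hhom, ?_⟩
  · rintro h0
    rw [h0, map_zero] at hD0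
    exact hD0 rfl
  · intro P hP
    set p := P.rep with hp
    have hpn : p ≠ 0 := P.rep_nonzero
    rw [map_mul, hD1, hD2, map_prod, map_prod] at hP
    have hA : ∀ i i', i ≠ i' → ∀ j, hEval ω i' p (vec ω t i j) ≠ 0 := by
      intro i i' hii j
      have h1 := Finset.prod_ne_zero_iff.mp (left_ne_zero_of_mul hP) i (Finset.mem_univ i)
      rw [map_prod] at h1
      have h2 := Finset.prod_ne_zero_iff.mp h1 i' (Finset.mem_univ i')
      rw [map_prod] at h2
      have h3 := Finset.prod_ne_zero_iff.mp h2 j (Finset.mem_univ j)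
      rw [if_neg hii, eval_hPoly] at h3
      exact h3
    have hB : ∀ i, cEval ω t i p ≠ 0 := by
      intro i
      have h1 := Finset.prod_ne_zero_iff.mp (right_ne_zero_of_mul hP) i (Finset.mem_univ i)
      rwa [eval_cPoly] at h1
    -- p is on no line
    have hline : ∀ (i : Option (Fin 3)) (a b : ℂ), p ≠ a • dir ω i + b • base ω i := by
      intro i a b he
      obtain ⟨i', hi'⟩ : ∃ i' : Option (Fin 3), i' ≠ i := exists_ne i
      have := hA i' i hi' (0, 0)
      rw [he, hEval_of_mem] at this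
      exact this rfl
    refine ⟨?_, ?_⟩
    · rintro ⟨i, j, hij⟩
      have h1 : p ∈ P.submodule := by
        rw [Projectivization.submodule_eq]; exact Submodule.mem_span_singleton_self _
      rw [hij, Submodule.mem_span_singleton] at h1
      obtain ⟨a, ha⟩ := h1
      apply hline i (a * par ω t i j) a
      rw [← ha, vec, smul_add, smul_smul]
      exact add_comm _ _
    · intro π hrange hker
      obtain ⟨σ, hσ⟩ := LinearMap.exists_rightInverse_of_surjective π hrange
      have hσ' : ∀ y, π (σ y) = y := fun y => by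
        rw [← LinearMap.comp_apply, hσ]; rfl
      have hker' : ∀ x, π x = 0 → ∃ a : ℂ, x = a • p := by
        intro x hx
        have : x ∈ LinearMap.ker π := hx
        rw [hker, Projectivization.submodule_eq, Submodule.mem_span_singleton] at this
        obtain ⟨a, ha⟩ := this
        exact ⟨a, ha.symm⟩
      have hσπ : ∀ x, ∃ a : ℂ, σ (π x) = x + a • p := by
        intro x
        obtain ⟨a, ha⟩ := hker' (σ (π x) - x) (by rw [map_sub, hσ', sub_self])
        exact ⟨a, by rw [← ha]; abel⟩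
      -- linear forms
      let ψ : Option (Fin 3) → (Fin 3 → ℂ) →ₗ[ℂ] ℂ := fun i => (hLin ω i p).comp σ
      have hψ : ∀ i x, ψ i (π x) = hEval ω i p x := by
        intro i x
        obtain ⟨a, ha⟩ := hσπ x
        change hLin ω i p (σ (π x)) = _
        rw [ha, map_add, map_smul, hLin_apply, hLin_apply, hEval_self]
        simp
      have hframe : ∀ i, ∃ T : Frame, T.ψ = ψ i ∧ T.u = π (dir ω i) ∧ T.v = π (base ω i) := by
        intro i
        obtain ⟨i', hi'⟩ : ∃ i' : Option (Fin 3), i' ≠ i := exists_ne i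
        have h1 := hA i' i hi' (0, 0)
        rw [← hψ] at h1
        refine exists_frame (ψ i) _ _ ((ψ i (π (vec ω t i' (0, 0))))⁻¹ • π (vec ω t i' (0, 0)))
          ?_ ?_ ?_ ?_
        · rw [hψ]
          have := hEval_line ω i p 1 0
          simpa using this
        · rw [hψ]
          have := hEval_line ω i p 0 1
          simpa using this
        · rw [map_smul, smul_eq_mul, inv_mul_cancel₀ h1]
        · rw [LinearIndependent.pair_iff]
          intro a b hab
          rw [← map_smul, ← map_smul, ← map_add] at hab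
          obtain ⟨c, hc⟩ := hker' _ hab
          have hc0 : c = 0 := by
            by_contra hc0
            apply hline i (c⁻¹ * a) (c⁻¹ * b)
            rw [mul_smul, mul_smul, ← smul_add, hc, smul_smul, inv_mul_cancel₀ hc0, one_smul]
          rw [hc0, zero_smul] at hc
          exact line_indep i a b hc
      choose T hTψ hTu hTv using hframe
      let g : Fin 4 → MvPolynomial (Fin 3) ℂ := fun k => linPoly ((LinearMap.proj k).comp σ)
      let F : MvPolynomial (Fin 3) ℂ := aeval g (conePoly 1 p * conePoly (t ^ 3) p)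
      have hFe : ∀ y, eval y F = coneEval 1 p (σ y) * coneEval (t ^ 3) p (σ y) := by
        intro y
        have : eval y F = eval (σ y) (conePoly 1 p * conePoly (t ^ 3) p) := by
          simp only [F]
          rw [← MvPolynomial.coe_aeval_eq_eval, ← MvPolynomial.coe_aeval_eq_eval]
          simp only [RingHom.coe_coe]
          rw [← AlgHom.comp_apply, MvPolynomial.comp_aeval]
          congr 1
          congr 1
          funext k
          have := eval_linPoly ((LinearMap.proj k).comp σ) y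
          rw [← MvPolynomial.coe_aeval_eq_eval] at this
          simp only [RingHom.coe_coe] at this
          exact this
        rw [this, map_mul, eval_conePoly, eval_conePoly]
      refine isCompleteIntersection_of_lines T (par ω t) (par_injective h ht0 ht) F (1 * (3 + 3))
        ?_ (fun i => cEval ω t i p) hB ?_ ?_ _ ?_
      · exact ((conePoly_hom 1 p).mul (conePoly_hom (t ^ 3) p)).aeval g
          (fun k => isHomogeneous_linPoly _)
      · intro i a b
        rw [hFe, hTu, hTv, ← map_smul, ← map_smul, ← map_add]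
        obtain ⟨c, hc⟩ := hσπ (a • dir ω i + b • base ω i)
        rw [hc, coneEval_add, coneEval_add]
        exact coneEval_frame h ht0 i p a b
      · intro i i' hii j
        rw [hTψ, hTu, hTv, ← map_smul, ← map_add, hψ]
        exact hA i i' hii j
      · intro q
        constructor
        · rintro ⟨z, ⟨i, j, hz⟩, hq⟩
          refine ⟨i, j, ?_⟩
          rw [hq, hz, LinearMap.map_span, Set.image_singleton, hTu, hTv, vec, map_add, map_smul]
        · rintro ⟨i, j, hq⟩
          refine ⟨Projectivization.mk ℂ _ (vec_ne_zero (ω := ω) (t := t) i j), ⟨i, j, ?_⟩, ?_⟩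
          · rw [Projectivization.submodule_mk]
          · rw [Projectivization.submodule_mk, hq, LinearMap.map_span, Set.image_singleton, hTu,
              hTv, vec, map_add, map_smul]

end Pool.Agent.Work.MP_586029_ag
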