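import Mathlib
import Pool.Agent.Work.MP_586029_ag.PartC

namespace Pool.Agent.Work.MP_586029_ag

open MvPolynomial

/-- quadratic form with coefficients `c` -/
def qf (c : Fin 10 → ℂ) (x : Fin 4 → ℂ) : ℂ :=
  c 0 * x 0 ^ 2 + c 1 * x 1 ^ 2 + c 2 * x 2 ^ 2 + c 3 * x 3 ^ 2 + c 4 * (x 0 * x 1)
    + c 5 * (x 0 * x 2) + c 6 * (x 0 * x 3) + c 7 * (x 1 * x 2) + c 8 * (x 1 * x 3)
    + c 9 * (x 2 * x 3)

/-- evaluation of quadratic forms at finitely many points -/
def qev {κ : Type*} (p : κ → Fin 4 → ℂ) : (Fin 10 → ℂ) →ₗ[ℂ] (κ → ℂ) where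
  toFun c k := qf c (p k)
  map_add' c c' := by ext k; simp only [qf, Pi.add_apply]; ring
  map_smul' a c := by
    ext k; simp only [qf, Pi.smul_apply, smul_eq_mul, RingHom.id_apply]; ring

theorem qf_zero (c : Fin 10 → ℂ) : qf c 0 = 0 := by simp [qf]

theorem qf_comb (c : Fin 10 → ℂ) (x y : Fin 4 → ℂ) (a b : ℂ) :
    qf c (a • x + b • y) = a ^ 2 * qf c x + b ^ 2 * qf c y
      + a * b * (qf c (x + y) - qf c x - qf c y) := by
  simp only [qf, Pi.add_apply, Pi.smul_apply, smul_eq_mul]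
  ring

theorem qf_line (c : Fin 10 → ℂ) (x y : Fin 4 → ℂ) (hx : qf c x = 0) (hy : qf c y = 0) (a b : ℂ)
    (ha : a ≠ 0) (hb : b ≠ 0) (h : qf c (a • x + b • y) = 0) (a' b' : ℂ) :
    qf c (a' • x + b' • y) = 0 := by
  rw [qf_comb, hx, hy] at h ⊢
  simp only [mul_zero, zero_add, sub_zero, mul_eq_zero, ha, hb, false_or] at h
  rw [h]; ring

/-- a plane (line in space) is the span of two vectors -/
theorem exists_pair {L : Submodule ℂ (Fin 4 → ℂ)} (h : Module.finrank ℂ L = 2) :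
    ∃ x y : Fin 4 → ℂ, x ∈ L ∧ y ∈ L ∧ ∀ z ∈ L, ∃ a b : ℂ, z = a • x + b • y := by
  have : Module.Free ℂ L := inferInstance
  let B := Module.finBasisOfFinrankEq ℂ L h
  refine ⟨B 0, B 1, (B 0).2, (B 1).2, ?_⟩
  intro z hz
  have := B.sum_repr ⟨z, hz⟩
  rw [Fin.sum_univ_two] at this
  refine ⟨B.repr ⟨z, hz⟩ 0, B.repr ⟨z, hz⟩ 1, ?_⟩
  have h2 := congrArg Subtype.val this
  simpa using h2.symm

/-- two independent vectors of a plane span it -/
theorem span_pair_of_finrank {M : Submodule ℂ (Fin 4 → ℂ)} (h : Module.finrank ℂ M = 2)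
    (x y : Fin 4 → ℂ) (hx : x ∈ M) (hy : y ∈ M) (hxy : LinearIndependent ℂ ![x, y]) (z : Fin 4 → ℂ)
    (hz : z ∈ M) : ∃ a b : ℂ, z = a • x + b • y := by
  have h1 : Submodule.span ℂ (Set.range ![x, y]) ≤ M := by
    rw [Submodule.span_le]
    rintro _ ⟨i, rfl⟩
    fin_cases i
    · exact hx
    · exact hy
  have h2 : Submodule.span ℂ (Set.range ![x, y]) = M := by
    apply Submodule.eq_of_le_of_finrank_eq h1
    rw [h, finrank_span_eq_card hxy]
    simp
  rw [← h2, Matrix.range_cons, Matrix.range_cons, Matrix.range_empty, Set.union_empty,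
    Set.singleton_union, Submodule.mem_span_pair] at hz
  obtain ⟨a, b, hab⟩ := hz
  exact ⟨a, b, hab.symm⟩

/-- every grid lies on a quadric -/
theorem grid_quadric {Z : Set (Projectivization ℂ (Fin 4 → ℂ))} (hZ : IsGrid Z) :
    ∃ c : Fin 10 → ℂ, c ≠ 0 ∧ ∀ z ∈ Z, ∀ x ∈ z.submodule, qf c x = 0 := by
  obtain ⟨a, b, L, M, -, hL, hM, hLd, -, hLM, rfl⟩ := hZ
  choose x y hx hy hxy using fun i => exists_pair (hL i)
  let p : Fin 3 × Fin 3 → Fin 4 → ℂ := fun k =>
    if h : (k.1 : ℕ) < a then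
      (match k.2 with
        | 0 => x ⟨k.1, h⟩
        | 1 => y ⟨k.1, h⟩
        | 2 => x ⟨k.1, h⟩ + y ⟨k.1, h⟩)
    else 0
  have hker : LinearMap.ker (qev p) ≠ ⊥ := by
    apply LinearMap.ker_ne_bot_of_finrank_lt
    simp
  obtain ⟨c, hc, hc0⟩ := Submodule.exists_mem_ne_zero_of_ne_bot hker
  refine ⟨c, hc0, ?_⟩
  have hc' : ∀ k, qf c (p k) = 0 := fun k => congrFun (LinearMap.mem_ker.mp hc) k
  have hLc : ∀ i : Fin a, (i : ℕ) < 3 → ∀ z ∈ L i, qf c z = 0 := by
    intro i hi z hz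
    obtain ⟨s, t, hst⟩ := hxy i z hz
    have h0 := hc' (⟨i, hi⟩, 0)
    have h1 := hc' (⟨i, hi⟩, 1)
    have h2 := hc' (⟨i, hi⟩, 2)
    simp only [p, i.2, dite_true] at h0 h1 h2
    rw [hst]
    refine qf_line c _ _ h0 h1 1 1 one_ne_zero one_ne_zero ?_ s t
    rw [one_smul, one_smul]
    exact h2
  rintro z ⟨i, j, hij⟩ w hw
  rw [hij, Submodule.mem_inf] at hw
  by_cases hi : (i : ℕ) < 3
  · exact hLc i hi w hw.1
  · have ha : 3 < a := by have := i.2; omega
    -- the three points of `M j` on the first three lines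
    have hpt : ∀ k : Fin a, ∃ q : Fin 4 → ℂ, q ≠ 0 ∧ q ∈ L k ∧ q ∈ M j := by
      intro k
      have h1 : (L k ⊓ M j) ≠ ⊥ := by
        intro h
        have := hLM k j
        rw [h] at this
        simp at this
      obtain ⟨q, hq, hq0⟩ := Submodule.exists_mem_ne_zero_of_ne_bot h1
      exact ⟨q, hq0, (Submodule.mem_inf.mp hq).1, (Submodule.mem_inf.mp hq).2⟩
    choose q hq0 hqL hqM using hpt
    let k0 : Fin a := ⟨0, by omega⟩
    let k1 : Fin a := ⟨1, by omega⟩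
    let k2 : Fin a := ⟨2, by omega⟩
    have h01 : k0 ≠ k1 := by simp [k0, k1]
    have h02 : k0 ≠ k2 := by simp [k0, k2]
    have h12 : k1 ≠ k2 := by simp [k1, k2]
    have hdis : ∀ k k', k ≠ k' → ∀ v, v ∈ L k → v ∈ L k' → v = 0 := by
      intro k k' hkk v hv hv'
      have : v ∈ L k ⊓ L k' := ⟨hv, hv'⟩
      rw [hLd k k' hkk] at this
      simpa using this
    have hli : LinearIndependent ℂ ![q k0, q k1] := by
      rw [LinearIndependent.pair_iff]
      intro s t hst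
      have h1 : s • q k0 = 0 := by
        apply hdis k0 k1 h01
        · exact (L k0).smul_mem _ (hqL k0)
        · have : s • q k0 = (-t) • q k1 := by
            rw [neg_smul]; exact eq_neg_of_add_eq_zero_left hst
          rw [this]
          exact (L k1).smul_mem _ (hqL k1)
      have hs : s = 0 := (smul_eq_zero.mp h1).resolve_right (hq0 k0)
      rw [h1, zero_add] at hst
      exact ⟨hs, (smul_eq_zero.mp hst).resolve_right (hq0 k1)⟩
    obtain ⟨s, t, hst⟩ := span_pair_of_finrank (hM j) _ _ (hqM k0) (hqM k1) hli w hw.2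
    obtain ⟨s', t', hst'⟩ := span_pair_of_finrank (hM j) _ _ (hqM k0) (hqM k1) hli (q k2) (hqM k2)
    have hs' : s' ≠ 0 := by
      rintro rfl
      rw [zero_smul, zero_add] at hst'
      apply hq0 k2
      apply hdis k1 k2 h12 _ _ (hqL k2)
      rw [hst']
      exact (L k1).smul_mem _ (hqL k1)
    have ht' : t' ≠ 0 := by
      rintro rfl
      rw [zero_smul, add_zero] at hst'
      apply hq0 k2
      apply hdis k0 k2 h02 _ _ (hqL k2)
      rw [hst']
      exact (L k0).smul_mem _ (hqL k0)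
    rw [hst]
    refine qf_line c _ _ (hLc k0 (by simp [k0]) _ (hqL k0)) (hLc k1 (by simp [k1]) _ (hqL k1))
      s' t' hs' ht' ?_ s t
    rw [← hst']
    exact hLc k2 (by simp [k2]) _ (hqL k2)

theorem three_roots {ω : ℂ} (h : ω ^ 2 + ω + 1 = 0) {A B E : ℂ}
    (hr : ∀ k : Fin 3, A + B * ω ^ (k : ℕ) + E * (ω ^ (k : ℕ)) ^ 2 = 0) :
    A = 0 ∧ B = 0 ∧ E = 0 := by
  have h0 := hr 0
  have h1 := hr 1
  have h2 := hr 2
  simp only [Fin.val_zero, Fin.val_one, Fin.val_two, pow_zero, pow_one, one_pow, mul_one] at h0 h1 h2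
  refine ⟨?_, ?_, ?_⟩
  · linear_combination (1 / 3) * h0 + (1 / 3) * h1 + (1 / 3) * h2
      - ((1 / 3) * (B + E * (ω ^ 2 - ω + 1))) * h
  · linear_combination (1 / 3) * h0 + (1 / 3) * ω ^ 2 * h1 + (1 / 3) * ω * h2
      - ((1 / 3) * (A + B * 2 * (ω - 1) + E * (ω ^ 3 - ω + 1) + B * 0)) * h
  · linear_combination (1 / 3) * h0 + (1 / 3) * ω * h1 + (1 / 3) * ω ^ 2 * h2
      - ((1 / 3) * (A + B * (ω ^ 2 - ω + 1) + E * (ω ^ 4 - ω ^ 3 + 2 * ω - 2))) * h

theorem mk_vec_mem {ω t : ℂ} (i : Option (Fin 3)) (j : Fin 2 × Fin 3) :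
    ∃ z ∈ ZZ ω t, vec ω t i j ∈ z.submodule := by
  refine ⟨Projectivization.mk ℂ _ (vec_ne_zero (ω := ω) (t := t) i j), ⟨i, j, ?_⟩, ?_⟩
  · rw [Projectivization.submodule_mk]
  · rw [Projectivization.submodule_mk]; exact Submodule.mem_span_singleton_self _

theorem not_isGrid_ZZ {ω t : ℂ} (h : ω ^ 2 + ω + 1 = 0) : ¬ IsGrid (ZZ ω t) := by
  intro hg
  obtain ⟨c, hc, hv⟩ := grid_quadric hg
  have hvec : ∀ i j, qf c (vec ω t i j) = 0 := by
    intro i j
    obtain ⟨z, hz, hz'⟩ := mk_vec_mem (ω := ω) (t := t) i j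
    exact hv z hz _ hz'
  apply hc
  have h1 : ∀ i : Fin 3, (c 0 + c 5 * ω ^ (i : ℕ) + c 2 * (ω ^ (i : ℕ)) ^ 2 = 0) ∧
      (c 4 + (c 6 + c 7) * ω ^ (i : ℕ) + c 9 * (ω ^ (i : ℕ)) ^ 2 = 0) ∧
      (c 1 + c 8 * ω ^ (i : ℕ) + c 3 * (ω ^ (i : ℕ)) ^ 2 = 0) := by
    intro i
    apply three_roots h
    intro k
    have := hvec (some i) (0, k)
    simp only [qf, vec, base, dir, par, Pi.add_apply, Pi.smul_apply, smul_eq_mul,
      Matrix.cons_val_zero, Matrix.cons_val_one, Matrix.cons_val, Fin.val_zero, pow_zero] at this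
    linear_combination this
  obtain ⟨h0, h5, h2⟩ := three_roots h fun i => (h1 i).1
  obtain ⟨h4, h67, h9⟩ := three_roots h fun i => (h1 i).2.1
  obtain ⟨h1', h8, h3⟩ := three_roots h fun i => (h1 i).2.2
  have h7 : c 7 = 0 := by
    have := hvec none (0, 0)
    simp only [qf, vec, base, dir, par, Pi.add_apply, Pi.smul_apply, smul_eq_mul,
      Matrix.cons_val_zero, Matrix.cons_val_one, Matrix.cons_val, Fin.val_zero, pow_zero] at this
    linear_combination -this + h1' + h2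
  have h6 : c 6 = 0 := by linear_combination h67 - h7
  ext k
  fin_cases k <;> assumption

theorem not_isDegenerate_ZZ {ω t : ℂ} (h : ω ^ 2 + ω + 1 = 0) :
    ¬ IsDegenerate (n := 3) (ZZ ω t) := by
  rintro ⟨H, hH, hZ⟩
  have hvec : ∀ i j, vec ω t i j ∈ H := by
    intro i j
    obtain ⟨z, hz, hz'⟩ := mk_vec_mem (ω := ω) (t := t) i j
    exact hZ z hz hz'
  have hne : H ≠ ⊤ := by
    rintro rfl
    simp at hH
  obtain ⟨φ, hφ, hφH⟩ := Submodule.exists_le_ker_of_lt_top H (lt_top_iff_ne_top.mpr hne)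
  apply hφ
  have hφv : ∀ x : Fin 4 → ℂ, φ x = φ (Pi.single 0 1) * x 0 + φ (Pi.single 1 1) * x 1 +
      φ (Pi.single 2 1) * x 2 + φ (Pi.single 3 1) * x 3 := by
    intro x
    rw [← eval_linPoly φ x, linPoly]
    simp [Fin.sum_univ_four]
  have h1 : ∀ i : Fin 3, (φ (Pi.single 0 1) + φ (Pi.single 2 1) * ω ^ (i : ℕ) = 0) ∧
      (φ (Pi.single 1 1) + φ (Pi.single 3 1) * ω ^ (i : ℕ) = 0) := by
    intro i
    have := three_roots (A := φ (Pi.single 0 1) + φ (Pi.single 2 1) * ω ^ (i : ℕ))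
      (B := φ (Pi.single 1 1) + φ (Pi.single 3 1) * ω ^ (i : ℕ)) (E := 0) h (by
        intro k
        have := hφH (hvec (some i) (0, k))
        rw [LinearMap.mem_ker, hφv] at this
        simp only [vec, base, dir, par, Pi.add_apply, Pi.smul_apply, smul_eq_mul,
          Matrix.cons_val_zero, Matrix.cons_val_one, Matrix.cons_val, Fin.val_zero,
          pow_zero] at this
        linear_combination this)
    exact ⟨this.1, this.2.1⟩
  have hA := three_roots (A := φ (Pi.single 0 1)) (B := φ (Pi.single 2 1)) (E := 0) h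
    (by intro k; linear_combination (h1 k).1)
  have hB := three_roots (A := φ (Pi.single 1 1)) (B := φ (Pi.single 3 1)) (E := 0) h
    (by intro k; linear_combination (h1 k).2)
  ext x
  rw [LinearMap.comp_apply, LinearMap.coe_single]
  fin_cases x
  · simpa using hA.1
  · simpa using hB.1
  · simpa using hA.2.1
  · simpa using hB.2.1

end Pool.Agent.Work.MP_586029_ag
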