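import Mathlib
import Pool.Agent.Work.MP_586029_ag.PartD

namespace Pool.Agent.Work.MP_586029_ag

open MvPolynomial

theorem independent_mk_iff {ι : Type*} (f : ι → Fin 4 → ℂ) (hf : ∀ i, f i ≠ 0) :
    Projectivization.Independent (fun i => Projectivization.mk ℂ (f i) (hf i)) ↔
      LinearIndependent ℂ f := by
  constructor
  · intro h
    rw [Projectivization.independent_iff] at h
    choose a ha using fun i => Projectivization.exists_smul_eq_mk_rep ℂ (f i) (hf i)
    have h2 := h.units_smul (fun i => (a i)⁻¹)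
    have h3 : ((fun i => (a i)⁻¹) • (Projectivization.rep ∘
        fun i => Projectivization.mk ℂ (f i) (hf i))) = f := by
      funext i
      simp only [Pi.smul_apply', Function.comp_apply]
      rw [← ha i, smul_smul, inv_mul_cancel, one_smul]
    rw [h3] at h2
    exact h2
  · intro h
    exact Projectivization.Independent.mk f hf h

theorem matroidIso_of_families {J : Type} (v w : J → Fin 4 → ℂ) (hv0 : ∀ j, v j ≠ 0)
    (hw0 : ∀ j, w j ≠ 0)
    (hv : Function.Injective fun j => Projectivization.mk ℂ (v j) (hv0 j))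
    (hw : Function.Injective fun j => Projectivization.mk ℂ (w j) (hw0 j))
    (hind : ∀ {α : Type} (g : α → J), LinearIndependent ℂ (fun x => v (g x)) ↔
      LinearIndependent ℂ (fun x => w (g x)))
    (Z Z' : Set (Projectivization ℂ (Fin 4 → ℂ)))
    (hZ : ∀ z, z ∈ Z ↔ ∃ j, z = Projectivization.mk ℂ (v j) (hv0 j))
    (hZ' : ∀ z, z ∈ Z' ↔ ∃ j, z = Projectivization.mk ℂ (w j) (hw0 j)) :
    MatroidIso (n := 3) Z Z' := by
  let EV : J ≃ Z := Equiv.ofBijective
    (fun j => ⟨Projectivization.mk ℂ (v j) (hv0 j), (hZ _).mpr ⟨j, rfl⟩⟩)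
    ⟨fun j j' h => hv (congrArg Subtype.val h), fun ⟨z, hz⟩ => by
      obtain ⟨j, hj⟩ := (hZ z).mp hz
      exact ⟨j, Subtype.ext hj.symm⟩⟩
  let EW : J ≃ Z' := Equiv.ofBijective
    (fun j => ⟨Projectivization.mk ℂ (w j) (hw0 j), (hZ' _).mpr ⟨j, rfl⟩⟩)
    ⟨fun j j' h => hw (congrArg Subtype.val h), fun ⟨z, hz⟩ => by
      obtain ⟨j, hj⟩ := (hZ' z).mp hz
      exact ⟨j, Subtype.ext hj.symm⟩⟩
  refine ⟨EV.symm.trans EW, fun S => ?_⟩
  have h1 : (fun x : S => (x : Z).1) =
      fun x : S => Projectivization.mk ℂ (v (EV.symm x)) (hv0 _) := by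
    funext x
    have : (EV (EV.symm x)).1 = (x : Z).1 := by rw [Equiv.apply_symm_apply]
    rw [← this]
    rfl
  have h2 : (fun x : S => ((EV.symm.trans EW) x).1) =
      fun x : S => Projectivization.mk ℂ (w (EV.symm x)) (hw0 _) := by
    funext x
    rfl
  rw [h1, h2, independent_mk_iff (fun x : S => v (EV.symm x)),
    independent_mk_iff (fun x : S => w (EV.symm x))]
  exact hind fun x : S => EV.symm x

theorem indep_map_iff {K : Type*} [Field K] (φ : K →+* ℂ) {α : Type*} (f : α → Fin 4 → K) :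
    LinearIndependent ℂ (fun x => φ ∘ f x) ↔ LinearIndependent K f := by
  let _ := φ.toAlgebra
  exact linearIndependent_algebraMap_comp_iff (R := K) (S := ℂ) (v := f)

theorem vec_map {K : Type*} [Field K] (φ : K →+* ℂ) (ω t : K) (i : Option (Fin 3))
    (j : Fin 2 × Fin 3) : φ ∘ vec ω t i j = vec (φ ω) (φ t) i j := by
  obtain ⟨c, k⟩ := j
  cases i <;> (ext l; fin_cases l <;> simp [vec, base, dir, par])

theorem vec_inj {ω t : ℂ} (h : ω ^ 2 + ω + 1 = 0) (ht0 : t ≠ 0) (ht : t ^ 3 ≠ 1)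
    (a : ℂ) (i i' : Option (Fin 3)) (j j' : Fin 2 × Fin 3)
    (hv : a • vec ω t i' j' = vec ω t i j) : i = i' ∧ j = j' := by
  have h0 := congrFun hv 0
  have h1 := congrFun hv 1
  have h2 := congrFun hv 2
  cases i with
  | none =>
    cases i' with
    | none =>
      simp [vec, base, dir] at h1 h2
      rw [h1, one_mul] at h2
      exact ⟨rfl, (par_injective h ht0 ht none h2).symm⟩
    | some i' =>
      simp [vec, base, dir] at h0 h1
      rw [h0] at h1
      simp at h1
  | some i =>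
    cases i' with
    | none => simp [vec, base, dir] at h0
    | some i' =>
      simp [vec, base, dir] at h0 h1 h2
      rw [h0, one_mul] at h1 h2
      have hi := omega_ne h h2
      subst hi
      exact ⟨rfl, (par_injective h ht0 ht _ h1).symm⟩

theorem mem_ZZ_iff {ω t : ℂ} (z : Projectivization ℂ (Fin 4 → ℂ)) :
    z ∈ ZZ ω t ↔ ∃ j : Option (Fin 3) × (Fin 2 × Fin 3),
      z = Projectivization.mk ℂ (vec ω t j.1 j.2) (vec_ne_zero _ _) := by
  constructor
  · rintro ⟨i, j, hij⟩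
    refine ⟨(i, j), ?_⟩
    apply Projectivization.submodule_injective
    rw [hij, Projectivization.submodule_mk]
  · rintro ⟨⟨i, j⟩, rfl⟩
    exact ⟨i, j, Projectivization.submodule_mk _ _⟩

theorem matroidIso_ZZ {K : Type*} [Field K] (φ φ' : K →+* ℂ) (ω t : K)
    (h : ω ^ 2 + ω + 1 = 0) (ht0 : t ≠ 0) (ht : t ^ 3 ≠ 1) :
    MatroidIso (n := 3) (ZZ (φ ω) (φ t)) (ZZ (φ' ω) (φ' t)) := by
  have key : ∀ φ : K →+* ℂ, Function.Injective fun j : Option (Fin 3) × (Fin 2 × Fin 3) =>
      Projectivization.mk ℂ (vec (φ ω) (φ t) j.1 j.2) (vec_ne_zero _ _) := by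
    intro φ ⟨i, j⟩ ⟨i', j'⟩ he
    simp only at he
    rw [Projectivization.mk_eq_mk_iff'] at he
    obtain ⟨a, ha⟩ := he
    have h1 : (φ ω) ^ 2 + φ ω + 1 = 0 := by rw [← map_pow, ← map_add, ← map_one φ, ← map_add, h,
      map_zero]
    have h2 : φ t ≠ 0 := (map_ne_zero φ).mpr ht0
    have h3 : (φ t) ^ 3 ≠ 1 := by
      rw [← map_pow, ← map_one φ]
      exact fun he => ht (φ.injective he)
    obtain ⟨h4, h5⟩ := vec_inj h1 h2 h3 a i i' j j' ha
    rw [h4, h5]
  refine matroidIso_of_families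
    (J := Option (Fin 3) × (Fin 2 × Fin 3)) (fun j => vec (φ ω) (φ t) j.1 j.2)
    (fun j => vec (φ' ω) (φ' t) j.1 j.2) (fun j => vec_ne_zero _ _) (fun j => vec_ne_zero _ _)
    (key φ) (key φ') ?_ _ _ mem_ZZ_iff mem_ZZ_iff
  intro α g
  have h1 := indep_map_iff φ (fun x => vec ω t (g x).1 (g x).2)
  have h2 := indep_map_iff φ' (fun x => vec ω t (g x).1 (g x).2)
  simp only [vec_map] at h1 h2
  rw [h1, h2]

end Pool.Agent.Work.MP_586029_ag
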