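import Mathlib
import Pool.Agent.Work.MP_586029_ag.PartE

namespace Pool.Agent.Work.MP_586029_ag

open MvPolynomial ComplexConjugate

theorem conj_unit {z : ℂ} (h : ‖z‖ = 1) : z * conj z = 1 := by
  rw [Complex.mul_conj, Complex.normSq_eq_norm_sq, h]; simp

theorem omega_norm {ω : ℂ} (h : ω ^ 2 + ω + 1 = 0) : ‖ω‖ = 1 := by
  have h3 := congrArg norm (omega_cube h)
  rw [norm_pow, norm_one] at h3
  exact (pow_eq_one_iff_of_nonneg (norm_nonneg _) (by norm_num)).mp h3

theorem par_norm {ω t : ℂ} (h : ω ^ 2 + ω + 1 = 0) (ht : ‖t‖ = 1) (i : Option (Fin 3))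
    (j : Fin 2 × Fin 3) : ‖par ω t i j‖ = 1 := by
  obtain ⟨c, k⟩ := j
  cases i <;> simp [par, omega_norm h, ht]

theorem line_skew {ω t : ℂ} (h : ω ^ 2 + ω + 1 = 0) (ht0 : t ≠ 0) (i i' : Option (Fin 3))
    (j : Fin 2 × Fin 3) (a b c : ℂ) (hc : c ≠ 0)
    (he : a • dir ω i + b • base ω i = c • vec ω t i' j) : i' = i := by
  have h0 := congrFun he 0
  have h1 := congrFun he 1
  have h2 := congrFun he 2
  have h3 := congrFun he 3
  obtain ⟨e, k⟩ := j
  cases i with
  | none =>
    cases i' with
    | none => rfl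
    | some i' =>
      exfalso
      simp [vec, base, dir] at h0
      exact hc h0.symm
  | some i =>
    cases i' with
    | none =>
      exfalso
      simp [vec, base, dir, par] at h0 h2
      rw [h0] at h2
      simp [hc, omega_ne_zero h, ht0] at h2
    | some i' =>
      simp [vec, base, dir, par] at h0 h2
      rw [h0] at h2
      have := mul_left_cancel₀ hc h2
      rw [omega_ne h this]

theorem not_projEquiv {ω t ω' t' : ℂ} (h : ω ^ 2 + ω + 1 = 0) (ht : ‖t‖ = 1)
    (h' : ω' ^ 2 + ω' + 1 = 0) (ht'0 : t' ≠ 0) (ht'3 : t' ^ 3 ≠ 1) (ht're : conj t' = t')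
    (ht'2 : t' ^ 2 ≠ 1) : ¬ ProjEquiv (n := 3) (ZZ ω' t') (ZZ ω t) := by
  have ht0 : t ≠ 0 := by rintro rfl; simp at ht
  rintro ⟨g, hg⟩
  -- images of the six points on the first line
  have himg : ∀ j : Fin 2 × Fin 3, ∃ (i : Option (Fin 3)) (k : Fin 2 × Fin 3) (c : ℂ), c ≠ 0 ∧
      g (vec ω' t' (some 0) j) = c • vec ω t i k := by
    intro j
    have h1 : Projectivization.map g.toLinearMap g.injective
        (Projectivization.mk ℂ (vec ω' t' (some 0) j) (vec_ne_zero _ _)) ∈ ZZ ω t := by
      rw [← hg]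
      exact ⟨_, (mem_ZZ_iff _).mpr ⟨(some 0, j), rfl⟩, rfl⟩
    rw [Projectivization.map_mk] at h1
    obtain ⟨i, k, hik⟩ := h1
    rw [Projectivization.submodule_mk] at hik
    have h2 : g (vec ω' t' (some 0) j) ∈ Submodule.span ℂ {vec ω t i k} := by
      rw [← hik]; exact Submodule.mem_span_singleton_self _
    rw [Submodule.mem_span_singleton] at h2
    obtain ⟨c, hc⟩ := h2
    refine ⟨i, k, c, ?_, hc.symm⟩
    rintro rfl
    rw [zero_smul] at hc
    exact vec_ne_zero (ω := ω') (t := t') (some 0) j (g.map_eq_zero_iff.mp hc.symm)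
  choose I k c hc0 hgc using himg
  -- pigeonhole
  obtain ⟨j1, j2, hj12, hI⟩ : ∃ j1 j2, j1 ≠ j2 ∧ I j1 = I j2 := by
    apply Fintype.exists_ne_map_eq_of_card_lt I
    simp
  set i := I j1 with hi
  have hs12 : par ω' t' (some 0) j1 - par ω' t' (some 0) j2 ≠ 0 := by
    rw [sub_ne_zero]
    exact fun he => hj12 (par_injective h' ht'0 ht'3 _ he)
  set s1 := par ω' t' (some 0) j1 with hs1
  set s2 := par ω' t' (some 0) j2 with hs2
  -- images of the frame
  have hL : ∀ (x : Fin 4 → ℂ), (∃ a b : ℂ, g x = a • dir ω i + b • base ω i) ↔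
      g x ∈ Submodule.span ℂ {dir ω i, base ω i} := by
    intro x
    rw [Submodule.mem_span_pair]
    constructor
    · rintro ⟨a, b, hab⟩; exact ⟨a, b, hab.symm⟩
    · rintro ⟨a, b, hab⟩; exact ⟨a, b, hab.symm⟩
  have hvecL : ∀ (c : ℂ) (k : Fin 2 × Fin 3), c • vec ω t i k ∈
      Submodule.span ℂ {dir ω i, base ω i} := by
    intro c k
    rw [Submodule.mem_span_pair]
    refine ⟨c * par ω t i k, c, ?_⟩
    rw [vec, smul_add, smul_smul]
    exact add_comm _ _
  have hg1 : g (vec ω' t' (some 0) j1) ∈ Submodule.span ℂ {dir ω i, base ω i} := by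
    rw [hgc j1]; exact hvecL _ _
  have hg2 : g (vec ω' t' (some 0) j2) ∈ Submodule.span ℂ {dir ω i, base ω i} := by
    rw [hgc j2, ← hI]; exact hvecL _ _
  have hdir : dir ω' (some 0) = (s1 - s2)⁻¹ •
      (vec ω' t' (some 0) j1 - vec ω' t' (some 0) j2) := by
    rw [vec, vec, add_sub_add_left_eq_sub, ← sub_smul, smul_smul, inv_mul_cancel₀ hs12, one_smul]
  have hbase : base ω' (some 0) = vec ω' t' (some 0) j1 - s1 • dir ω' (some 0) := by
    rw [vec, add_sub_cancel_right]
  have hgd : g (dir ω' (some 0)) ∈ Submodule.span ℂ {dir ω i, base ω i} := by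
    rw [hdir, map_smul, map_sub]
    exact Submodule.smul_mem _ _ (Submodule.sub_mem _ hg1 hg2)
  have hgb : g (base ω' (some 0)) ∈ Submodule.span ℂ {dir ω i, base ω i} := by
    rw [hbase, map_sub, map_smul]
    exact Submodule.sub_mem _ hg1 (Submodule.smul_mem _ _ hgd)
  obtain ⟨b, a, hab⟩ := (hL _).mpr hgb
  obtain ⟨d, c', hcd⟩ := (hL _).mpr hgd
  -- all images on the same line
  have hj : ∀ j, g (vec ω' t' (some 0) j) = (b + par ω' t' (some 0) j * d) • dir ω i +
      (a + par ω' t' (some 0) j * c') • base ω i := by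
    intro j
    rw [vec, map_add, map_smul, hab, hcd]
    module
  have hIj : ∀ j, I j = i := by
    intro j
    refine line_skew h ht0 i (I j) (k j) (b + par ω' t' (some 0) j * d)
      (a + par ω' t' (some 0) j * c') (c j) (hc0 j) ?_
    rw [← hgc j, hj j]
  have hpar : ∀ j, ∃ σ : ℂ, σ * conj σ = 1 ∧
      b + par ω' t' (some 0) j * d = (a + par ω' t' (some 0) j * c') * σ := by
    intro j
    have h1 := hgc j
    rw [hj j, hIj j, vec, smul_add, smul_smul] at h1
    have h2 : (b + par ω' t' (some 0) j * d - c j * par ω t i (k j)) • dir ω i +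
        (a + par ω' t' (some 0) j * c' - c j) • base ω i = 0 := by
      rw [sub_smul, sub_smul]
      rw [← sub_eq_zero] at h1
      rw [← h1]
      abel
    obtain ⟨h3, h4⟩ := line_indep i _ _ h2
    refine ⟨par ω t i (k j), conj_unit (par_norm h ht _ _), ?_⟩
    rw [sub_eq_zero] at h3 h4
    rw [h3, h4]
  -- the equation of a circle
  have hcirc : ∀ j, (b * conj b - a * conj a) + (conj b * d - conj a * c') * par ω' t' (some 0) j
      + (b * conj d - a * conj c') * conj (par ω' t' (some 0) j)
      + (d * conj d - c' * conj c') * (par ω' t' (some 0) j * conj (par ω' t' (some 0) j)) = 0 := by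
    intro j
    obtain ⟨σ, hσ, he⟩ := hpar j
    have he' := congrArg conj he
    simp only [map_add, map_mul] at he'
    have h1 : (b + par ω' t' (some 0) j * d) *
        (conj b + conj (par ω' t' (some 0) j) * conj d) =
        (a + par ω' t' (some 0) j * c') * (conj a + conj (par ω' t' (some 0) j) * conj c') := by
      rw [he, he']
      linear_combination ((a + par ω' t' (some 0) j * c') *
        (conj a + conj (par ω' t' (some 0) j) * conj c')) * hσ
    linear_combination h1
  have hroots := three_roots (A := (b * conj b - a * conj a) + (d * conj d - c' * conj c'))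
    (B := conj b * d - conj a * c') (E := b * conj d - a * conj c') h' (by
      intro k
      have h1 := hcirc (0, k)
      have hn : ω' ^ (k : ℕ) * conj (ω' ^ (k : ℕ)) = 1 := conj_unit (by
        rw [norm_pow, omega_norm h', one_pow])
      have h3 : (ω' ^ (k : ℕ)) ^ 3 = 1 := omega_pow_cube h' k
      have h4 : conj (ω' ^ (k : ℕ)) = (ω' ^ (k : ℕ)) ^ 2 := by
        linear_combination (ω' ^ (k : ℕ)) ^ 2 * hn - conj (ω' ^ (k : ℕ)) * h3
      simp only [par, Fin.val_zero, pow_zero, one_mul] at h1
      rw [hn, h4] at h1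
      linear_combination h1)
  obtain ⟨hA, hB, hE⟩ := hroots
  have ht'c := hcirc (1, 0)
  simp only [par, Fin.val_zero, Fin.val_one, pow_zero, pow_one, mul_one] at ht'c
  rw [ht're, hB, hE] at ht'c
  have hC : d * conj d - c' * conj c' = 0 := by
    have h1 : (d * conj d - c' * conj c') * (t' ^ 2 - 1) = 0 := by
      linear_combination ht'c - hA
    exact (mul_eq_zero.mp h1).resolve_right (sub_ne_zero.mpr ht'2)
  have hA' : b * conj b - a * conj a = 0 := by linear_combination hA - hC
  -- the determinant vanishes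
  have hdet : a * d - b * c' = 0 := by
    by_cases ha : a = 0
    · have hb : b = 0 := by
        rw [ha, zero_mul, sub_zero, Complex.mul_conj] at hA'
        have : Complex.normSq b = 0 := by exact_mod_cast hA'
        exact Complex.normSq_eq_zero.mp this
      rw [ha, hb]; ring
    · have hca : conj a ≠ 0 := by rwa [Ne, map_eq_zero]
      have : conj a * (a * d - b * c') = 0 := by
        linear_combination b * hB - d * hA'
      exact (mul_eq_zero.mp this).resolve_left hca
  have hz : ∀ x : Fin 4 → ℂ, g x = 0 → x = 0 := fun x hx => g.map_eq_zero_iff.mp hx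
  have h5 : c' • base ω' (some 0) - a • dir ω' (some 0) = 0 := by
    apply hz
    rw [map_sub, map_smul, map_smul, hab, hcd]
    have : c' • (b • dir ω i + a • base ω i) - a • (d • dir ω i + c' • base ω i) =
        (-(a * d - b * c')) • dir ω i := by module
    rw [this, hdet, neg_zero, zero_smul]
  have h6 : d • base ω' (some 0) - b • dir ω' (some 0) = 0 := by
    apply hz
    rw [map_sub, map_smul, map_smul, hab, hcd]
    have : d • (b • dir ω i + a • base ω i) - b • (d • dir ω i + c' • base ω i) =
        (a * d - b * c') • base ω i := by module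
    rw [this, hdet, zero_smul]
  have h7 := line_indep (ω := ω') (some 0) (-a) c' (by rw [← h5]; module)
  have h8 := line_indep (ω := ω') (some 0) (-b) d (by rw [← h6]; module)
  have ha0 : a = 0 := by simpa using h7.1
  have hb0 : b = 0 := by simpa using h8.1
  have h9 : base ω' (some 0) = 0 := by
    apply hz
    rw [hab, ha0, hb0]
    simp
  have := congrFun h9 0
  simp [base] at this

end Pool.Agent.Work.MP_586029_ag
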