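import Mathlib
import Pool.Agent.Work.MP_586029_ag.PartF

namespace Pool.Agent.Work.MP_586029_ag

open MvPolynomial ComplexConjugate

theorem unit_root {t : ℂ} {r : ℝ} (hr : r ^ 2 = 2) (hr0 : 0 < r)
    (h : t ^ 2 - (1 - (r : ℂ)) * t + 1 = 0) : ‖t‖ = 1 := by
  have hre := congrArg Complex.re h
  have him := congrArg Complex.im h
  simp [pow_two] at hre him
  have hr1 : r < 2 := by nlinarith
  have hr2 : 1 < r := by nlinarith
  have him' : t.im * (2 * t.re - (1 - r)) = 0 := by linear_combination him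
  have him0 : t.im ≠ 0 := by
    intro h0
    rw [h0] at hre
    nlinarith [sq_nonneg (2 * t.re - (1 - r))]
  have hx : 2 * t.re = 1 - r := by
    have := (mul_eq_zero.mp him').resolve_left him0
    linarith
  have h1 : t.re ^ 2 + t.im ^ 2 = 1 := by
    linear_combination t.re * hx - hre
  rw [← Real.sqrt_sq (norm_nonneg t), ← Complex.normSq_eq_norm_sq, Complex.normSq_apply,
    ← pow_two, ← pow_two, h1, Real.sqrt_one]

theorem real_root {t : ℂ} {r : ℝ} (hr : r ^ 2 = 2) (hr0 : 0 < r)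
    (h : t ^ 2 - (1 + (r : ℂ)) * t + 1 = 0) : conj t = t := by
  have hre := congrArg Complex.re h
  have him := congrArg Complex.im h
  simp [pow_two] at hre him
  have hr2 : 1 < r := by nlinarith
  have him' : t.im * (2 * t.re - (1 + r)) = 0 := by linear_combination him
  rw [Complex.conj_eq_iff_im]
  by_contra him0
  have hx : 2 * t.re = 1 + r := by
    have := (mul_eq_zero.mp him').resolve_left him0
    linarith
  have h1 : t.re ^ 2 + t.im ^ 2 = 1 := by
    linear_combination t.re * hx - hre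
  nlinarith [sq_nonneg t.im]

theorem root_ne_zero {K : Type*} [Field K] {t s : K} (h : t ^ 2 - s * t + 1 = 0) : t ≠ 0 := by
  rintro rfl
  norm_num at h

theorem root_cube {K : Type*} [Field K] {t s : K} (h : t ^ 2 - s * t + 1 = 0)
    (hs : s ≠ 2) (hs' : s ≠ -1) : t ^ 3 ≠ 1 := by
  intro h3
  have h1 : (t - 1) * (t ^ 2 + t + 1) = 0 := by linear_combination h3
  rcases mul_eq_zero.mp h1 with h2 | h2
  · have : t = 1 := sub_eq_zero.mp h2
    rw [this] at h
    apply hs
    linear_combination -h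
  · have h4 : t * (s + 1) = 0 := by linear_combination h2 - h
    rcases mul_eq_zero.mp h4 with h5 | h5
    · exact root_ne_zero h h5
    · apply hs'
      linear_combination h5

theorem exists_embeddings_aux (K : Type) [Field K] [Algebra ℚ K] [IsAlgClosed K]
    [Normal ℚ K] : ∃ (φ φ' : K →+* ℂ) (r : K),
    φ r = (Real.sqrt 2 : ℝ) ∧ φ' r = -(Real.sqrt 2 : ℝ) := by
  obtain ⟨r, hr⟩ : ∃ r : K, r ^ 2 = 2 := by
    obtain ⟨r, hr⟩ := IsAlgClosed.exists_pow_nat_eq (2 : K) (n := 2) (by norm_num)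
    exact ⟨r, hr⟩
  have hirr : Irreducible (Polynomial.X ^ 2 - Polynomial.C 2 : Polynomial ℚ) := by
    apply X_pow_sub_C_irreducible_of_prime Nat.prime_two
    intro b hb
    have h1 : Irrational (Real.sqrt 2) := irrational_sqrt_two
    apply h1
    refine ⟨|b|, ?_⟩
    have h2 : ((b : ℝ)) ^ 2 = 2 := by exact_mod_cast hb
    rw [← h2, Real.sqrt_sq_eq_abs, Rat.cast_abs]
  have hmon : (Polynomial.X ^ 2 - Polynomial.C 2 : Polynomial ℚ).Monic :=
    Polynomial.monic_X_pow_sub_C 2 (by norm_num)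
  have hmin : ∀ x : K, x ^ 2 = 2 → minpoly ℚ x = Polynomial.X ^ 2 - Polynomial.C 2 := by
    intro x hx
    symm
    apply minpoly.eq_of_irreducible_of_monic hirr _ hmon
    simp [hx]
  have hconj : IsConjRoot ℚ (-r) r := by
    rw [IsConjRoot, hmin _ (by rw [neg_sq, hr]), hmin _ hr]
  obtain ⟨σ, hσ⟩ := isConjRoot_iff_exists_algEquiv.mp hconj
  let φ0 : K →ₐ[ℚ] ℂ := IsAlgClosed.lift
  have hφ0 : φ0 r = (Real.sqrt 2 : ℝ) ∨ φ0 r = -(Real.sqrt 2 : ℝ) := by
    have h1 : (φ0 r) ^ 2 = 2 := by rw [← map_pow, hr]; exact map_ofNat φ0 2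
    have h2 : ((Real.sqrt 2 : ℝ) : ℂ) ^ 2 = 2 := by
      rw [← Complex.ofReal_pow, Real.sq_sqrt (by norm_num)]; simp
    have h3 : (φ0 r - (Real.sqrt 2 : ℝ)) * (φ0 r + (Real.sqrt 2 : ℝ)) = 0 := by
      linear_combination h1 - h2
    rcases mul_eq_zero.mp h3 with h | h
    · left; exact sub_eq_zero.mp h
    · right; exact eq_neg_of_add_eq_zero_left h
  rcases hφ0 with h | h
  · refine ⟨φ0, φ0.toRingHom.comp σ.toRingHom, r, h, ?_⟩
    have h1 : σ r = -r := hσ
    change φ0 (σ r) = _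
    rw [h1, map_neg, h]
  · refine ⟨φ0.toRingHom.comp σ.toRingHom, φ0, r, ?_, h⟩
    have h1 : σ r = -r := hσ
    change φ0 (σ r) = _
    rw [h1, map_neg, h, neg_neg]

theorem normal_closure (k : Type) [Field k] : Normal k (AlgebraicClosure k) := inferInstance

theorem exists_embeddings : ∃ (K : Type) (_ : Field K) (_ : IsAlgClosed K) (_ : CharZero K)
    (φ φ' : K →+* ℂ) (r : K), φ r = (Real.sqrt 2 : ℝ) ∧ φ' r = -(Real.sqrt 2 : ℝ) :=
  ⟨AlgebraicClosure ℚ, inferInstance, inferInstance, inferInstance,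
    @exists_embeddings_aux (AlgebraicClosure ℚ) _ (AlgebraicClosure.instAlgebra ℚ) _
      (normal_closure ℚ)⟩

theorem finite_ZZ (ω t : ℂ) : (ZZ ω t).Finite := by
  have : ZZ ω t = Set.range fun j : Option (Fin 3) × (Fin 2 × Fin 3) =>
      Projectivization.mk ℂ (vec ω t j.1 j.2) (vec_ne_zero _ _) := by
    ext z
    rw [mem_ZZ_iff, Set.mem_range]
    exact exists_congr fun j => eq_comm
  rw [this]
  exact Set.finite_range _

theorem isNontrivialGeproci_ZZ {ω t : ℂ} (h : ω ^ 2 + ω + 1 = 0) (ht0 : t ≠ 0)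
    (ht : t ^ 3 ≠ 1) : IsNontrivialGeproci (ZZ ω t) :=
  ⟨finite_ZZ _ _, isGeproci_ZZ h ht0 ht, not_isDegenerate_ZZ h, not_isGrid_ZZ h⟩

theorem main : ∃ Z Z' : Set (Projectivization ℂ (Fin 4 → ℂ)),
    IsNontrivialGeproci Z ∧ IsNontrivialGeproci Z' ∧
    MatroidIso (n := 3) Z Z' ∧ ¬ ProjEquiv (n := 3) Z Z' := by
  obtain ⟨K, _, _, _, φ, φ', r, hr, hr'⟩ := exists_embeddings
  have hs0 : 0 < Real.sqrt 2 := Real.sqrt_pos.mpr (by norm_num)
  have hs2 : Real.sqrt 2 ^ 2 = 2 := Real.sq_sqrt (by norm_num)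
  obtain ⟨ω, hω⟩ : ∃ ω : K, ω ^ 2 + ω + 1 = 0 := by
    obtain ⟨ω, hω⟩ := IsAlgClosed.exists_root
      (Polynomial.C 1 * Polynomial.X ^ 2 + Polynomial.C 1 * Polynomial.X + Polynomial.C 1 :
        Polynomial K) (by
        rw [Polynomial.degree_quadratic one_ne_zero]; norm_num)
    exact ⟨ω, by simpa [Polynomial.IsRoot] using hω⟩
  obtain ⟨t, ht⟩ : ∃ t : K, t ^ 2 - (1 - r) * t + 1 = 0 := by
    obtain ⟨t, ht⟩ := IsAlgClosed.exists_root
      (Polynomial.C 1 * Polynomial.X ^ 2 + Polynomial.C (-(1 - r)) * Polynomial.X + Polynomial.C 1 :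
        Polynomial K) (by
        rw [Polynomial.degree_quadratic one_ne_zero]; norm_num)
    refine ⟨t, ?_⟩
    have : 1 * t ^ 2 + (-(1 - r)) * t + 1 = 0 := by
      simpa [Polynomial.IsRoot] using ht
    linear_combination this
  have hr2 : r ^ 2 = 2 := by
    apply φ.injective
    rw [map_pow, hr, ← Complex.ofReal_pow, hs2, map_ofNat]
    simp
  have hKs : (1 - r) ≠ 2 := by
    intro h
    have h1 : r = -1 := by linear_combination -h
    rw [h1] at hr2
    norm_num at hr2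
  have hKs' : (1 - r) ≠ -1 := by
    intro h
    have h1 : r = 2 := by linear_combination -h
    rw [h1] at hr2
    norm_num at hr2
  have ht0 := root_ne_zero ht
  have ht3 := root_cube ht hKs hKs'
  -- transport
  have hω1 : ∀ φ : K →+* ℂ, (φ ω) ^ 2 + φ ω + 1 = 0 := fun φ => by
    rw [← map_pow, ← map_add, ← map_one φ, ← map_add, hω, map_zero]
  have ht1 : ∀ φ : K →+* ℂ, (φ t) ^ 2 - (1 - φ r) * φ t + 1 = 0 := fun φ => by
    have := congrArg φ ht
    simpa using this
  have ht01 : ∀ φ : K →+* ℂ, φ t ≠ 0 := fun φ => (map_ne_zero φ).mpr ht0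
  have ht31 : ∀ φ : K →+* ℂ, (φ t) ^ 3 ≠ 1 := fun φ => by
    rw [← map_pow, ← map_one φ]
    exact fun he => ht3 (φ.injective he)
  have hnorm : ‖φ t‖ = 1 := by
    apply unit_root hs2 hs0
    have := ht1 φ
    rwa [hr] at this
  have hreal : conj (φ' t) = φ' t := by
    apply real_root hs2 hs0
    have := ht1 φ'
    rw [hr'] at this
    linear_combination this
  have hne : (φ' t) ^ 2 ≠ 1 := by
    intro h
    have h0 := ht1 φ'
    have h1 : (φ' t - 1) * (φ' t + 1) = 0 := by linear_combination h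
    rcases mul_eq_zero.mp h1 with h2 | h2
    · have h3 : φ' t = 1 := sub_eq_zero.mp h2
      exact ht31 φ' (by rw [h3]; norm_num)
    · have h3 : φ' t = -1 := eq_neg_of_add_eq_zero_left h2
      rw [h3, hr'] at h0
      have h4 : (((3 + Real.sqrt 2 : ℝ)) : ℂ) = 0 := by
        push_cast
        linear_combination h0
      have h5 : (3 + Real.sqrt 2 : ℝ) = 0 := by exact_mod_cast h4
      linarith
  refine ⟨ZZ (φ' ω) (φ' t), ZZ (φ ω) (φ t), isNontrivialGeproci_ZZ (hω1 φ') (ht01 φ') (ht31 φ'),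
    isNontrivialGeproci_ZZ (hω1 φ) (ht01 φ) (ht31 φ), matroidIso_ZZ φ' φ ω t hω ht0 ht3,
    not_projEquiv (hω1 φ) hnorm (hω1 φ') (ht01 φ') (ht31 φ') hreal hne⟩

end Pool.Agent.Work.MP_586029_ag
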